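import Pool.Agent.Lib.MP_aa609a_lc.Defs
import Pool.Agent.Shared.Oracle.FunProp

/-! The finite injury construction of two trees. -/

namespace Pool.Agent.Lib.MP_aa609a_lc

open Pool.Agent.Shared.Oracle Pool.Agent.Shared.Oracle.FP Encodable Nat.Partrec

/-- bounded universal quantifier -/
def allb (n : ℕ) (p : ℕ → Bool) : Bool := (List.range n).all p

/-- bounded existential quantifier -/
def exb (n : ℕ) (p : ℕ → Bool) : Bool := !(allb n fun i => !(p i))

/-- bounded minimisation -/
def mub (n : ℕ) (p : ℕ → Bool) : ℕ := (List.range n).findIdx p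

@[simp] theorem allb_iff {n : ℕ} {p : ℕ → Bool} : allb n p = true ↔ ∀ i < n, p i = true := by
  simp [allb]

@[simp] theorem exb_iff {n : ℕ} {p : ℕ → Bool} : exb n p = true ↔ ∃ i < n, p i = true := by
  simp [exb, allb]

theorem mub_le (n : ℕ) (p : ℕ → Bool) : mub n p ≤ n := by
  simpa [mub] using List.findIdx_le_length (p := p) (xs := List.range n)

theorem mub_spec {n : ℕ} {p : ℕ → Bool} (h : mub n p < n) : p (mub n p) = true := by
  have := List.findIdx_getElem (p := p) (xs := List.range n) (w := by simpa [mub] using h)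
  simpa [mub] using this

theorem mub_min {n : ℕ} {p : ℕ → Bool} {i : ℕ} (h : i < mub n p) : p i = false := by
  have := List.not_of_lt_findIdx (p := p) (xs := List.range n) h
  simpa using this

section Comp

variable {α : Type} [Primcodable α]

@[fun_prop] theorem c_allb {n : α → ℕ} {p : α → ℕ → Bool} (hn : Computable n)
    (hp : Computable fun q : α × ℕ => p q.1 q.2) : Computable fun a => allb (n a) (p a) :=
  c_all (c_range hn) hp

@[fun_prop] theorem c_exb {n : α → ℕ} {p : α → ℕ → Bool} (hn : Computable n)
    (hp : Computable fun q : α × ℕ => p q.1 q.2) : Computable fun a => exb (n a) (p a) :=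
  c_not (c_allb (p := fun a i => !(p a i)) hn (c_not hp))

@[fun_prop] theorem c_mub {n : α → ℕ} {p : α → ℕ → Bool} (hn : Computable n)
    (hp : Computable fun q : α × ℕ => p q.1 q.2) : Computable fun a => mub (n a) (p a) :=
  (c_foldr (g := fun _ => 0) (h := fun a b r => cond (p a b) 0 (r + 1)) (c_range hn) (c_const _)
    (c_cond (hp.comp (g := fun q : α × ℕ × ℕ => (q.1, q.2.1)) (by fun_prop)) (c_const _)
      (by fun_prop))).of_eq fun a => by
    unfold mub
    induction List.range (n a) <;> simp [*, List.findIdx_cons]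

@[fun_prop] theorem c_xor {f g : α → Bool} (hf : Computable f) (hg : Computable g) :
    Computable fun a => xor (f a) (g a) := (Primrec.dom_bool₂ xor).to_comp.comp hf hg

/-- the string of the first `k` binary digits of `m` -/
def sg (m k : ℕ) : List Bool := seg (Nat.testBit m) k

@[fun_prop] theorem c_sg {m k : α → ℕ} (hm : Computable m) (hk : Computable k) :
    Computable fun a => sg (m a) (k a) :=
  c_map (g := fun a i => Nat.testBit (m a) i) (c_range hk) (by fun_prop)

/-- two numbers have the same first `n` digits -/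
def agree (n a b : ℕ) : Bool := allb n fun i => decide (a.testBit i = b.testBit i)

@[fun_prop] theorem c_agree {n a b : α → ℕ} (h1 : Computable n) (h2 : Computable a)
    (h3 : Computable b) : Computable fun x => agree (n x) (a x) (b x) := by
  unfold agree
  fun_prop

/-- the set coded by `ρ` lies on the side `c` of `τ` -/
def sub (c : Bool) (s ρ τ : ℕ) : Bool := allb s fun i => !(ρ.testBit i) || decide (τ.testBit i = c)

@[fun_prop] theorem c_sub' {c : α → Bool} {n a b : α → ℕ} (h0 : Computable c) (h1 : Computable n)
    (h2 : Computable a) (h3 : Computable b) : Computable fun x => sub (c x) (n x) (a x) (b x) := by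
  unfold sub
  fun_prop

/-- the operator with index `w` enumerates `x` from the oracle `ρ` within `s` steps -/
def out (w s ρ x : ℕ) : Bool :=
  exb (s + 1) fun k => (Code.evaln s (Denumerable.ofNat Code w) (encode (sg ρ k, x))).isSome

@[fun_prop] theorem c_out {w n a b : α → ℕ} (h0 : Computable w) (h1 : Computable n)
    (h2 : Computable a) (h3 : Computable b) : Computable fun x => out (w x) (n x) (a x) (b x) := by
  unfold out
  fun_prop

/-- the colouring given by a list of cuts -/
def col (g : List ℕ) (x : ℕ) : Bool := g.foldr (fun t b => xor b (decide (t ≤ x))) false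

@[fun_prop] theorem c_col {g : α → List ℕ} {n : α → ℕ} (h0 : Computable g) (h1 : Computable n) :
    Computable fun x => col (g x) (n x) := by
  unfold col
  fun_prop

/-- length of the stems of a requirement -/
def dn (e : ℕ) : ℕ := e.unpair.1

/-- node of a requirement -/
def ds (e : ℕ) : ℕ := e.unpair.2.unpair.1

/-- stems of a requirement -/
def dF (e : ℕ) (c : Bool) : ℕ :=
  cond c e.unpair.2.unpair.2.unpair.1.unpair.2 e.unpair.2.unpair.2.unpair.1.unpair.1

/-- operators of a requirement -/
def dW (e : ℕ) (c : Bool) : ℕ :=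
  cond c e.unpair.2.unpair.2.unpair.2.unpair.2 e.unpair.2.unpair.2.unpair.2.unpair.1

theorem exists_data (n σ : ℕ) (F w : Bool → ℕ) :
    ∃ e, dn e = n ∧ ds e = σ ∧ (∀ c, dF e c = F c) ∧ ∀ c, dW e c = w c :=
  ⟨Nat.pair n (Nat.pair σ (Nat.pair (Nat.pair (F false) (F true)) (Nat.pair (w false) (w true)))),
    by simp [dn], by simp [ds], by simp [dF], by simp [dW]⟩

@[fun_prop] theorem c_dn {e : α → ℕ} (h : Computable e) : Computable fun x => dn (e x) := by
  unfold dn
  fun_prop

@[fun_prop] theorem c_ds {e : α → ℕ} (h : Computable e) : Computable fun x => ds (e x) := by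
  unfold ds
  fun_prop

@[fun_prop] theorem c_dF {e : α → ℕ} {c : α → Bool} (h : Computable e) (h' : Computable c) :
    Computable fun x => dF (e x) (c x) := by
  unfold dF
  fun_prop

@[fun_prop] theorem c_dW {e : α → ℕ} {c : α → Bool} (h : Computable e) (h' : Computable c) :
    Computable fun x => dW (e x) (c x) := by
  unfold dW
  fun_prop

/-- a stem on the side `c` of `τ` with a large output -/
def ev1 (e : ℕ) (c : Bool) (r s τ : ℕ) : Bool :=
  exb (2 ^ s) fun ρ => agree (dn e) ρ (dF e c) && sub c s ρ τ &&
    exb s fun x => decide (r ≤ x) && out (dW e c) s ρ x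

@[fun_prop] theorem c_ev1 {e r s τ : α → ℕ} {c : α → Bool} (h0 : Computable e)
    (h1 : Computable c) (h2 : Computable r) (h3 : Computable s) (h4 : Computable τ) :
    Computable fun x => ev1 (e x) (c x) (r x) (s x) (τ x) := by
  unfold ev1
  fun_prop

/-- a stem on the side `c` of `τ` with two outputs that the flip `a` separates -/
def ev2 (e : ℕ) (c : Bool) (g : List ℕ) (a : Bool) (r t s τ : ℕ) : Bool :=
  exb (2 ^ s) fun ρ => agree (dn e) ρ (dF e c) && sub c s ρ τ &&
    exb t fun x => decide (r ≤ x) && out (dW e c) s ρ x &&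
      exb s fun y => decide (t ≤ y) && out (dW e c) s ρ y && xor (col g x) (xor (col g y) a)

@[fun_prop] theorem c_ev2 {e r t s τ : α → ℕ} {c a : α → Bool} {g : α → List ℕ}
    (h0 : Computable e) (h1 : Computable c) (h2 : Computable g) (h3 : Computable a)
    (h4 : Computable r) (h5 : Computable t) (h6 : Computable s) (h7 : Computable τ) :
    Computable fun x => ev2 (e x) (c x) (g x) (a x) (r x) (t x) (s x) (τ x) := by
  unfold ev2
  fun_prop

/-- records: restraint, cut, phase, level, counter -/
abbrev Rc : Type := ℕ × ℕ × Bool × ℕ × ℕ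

/-- states: stack of records, two colourings, last restraint -/
abbrev St : Type := List Rc × (List ℕ × List ℕ) × ℕ

variable (X : List Bool → Bool)

/-- the event of the first phase -/
def P1 (e r s : ℕ) : Bool :=
  decide (dn e ≤ s) && allb (2 ^ s) fun τ => !(agree (dn e) τ (ds e) && X (sg τ s)) ||
    (ev1 e false r s τ && ev1 e true r s τ)

/-- the event of the second phase -/
def P2 (e : ℕ) (R : Rc) (g : List ℕ × List ℕ) (s : ℕ) (a b : Bool) : Bool :=
  allb (2 ^ s) fun τ => !(agree (dn e) τ (ds e) && agree R.2.2.2.1 τ R.2.2.2.2 && X (sg τ s)) ||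
    (ev2 e false g.1 a R.1 R.2.1 s τ || ev2 e true g.2 b R.1 R.2.1 s τ)

/-- first flip -/
def pa (e : ℕ) (R : Rc) (g : List ℕ × List ℕ) (s : ℕ) : Bool :=
  R.2.2.1 && !(P2 X e R g s false false || P2 X e R g s false true)

/-- second flip -/
def pb (e : ℕ) (R : Rc) (g : List ℕ × List ℕ) (s : ℕ) : Bool :=
  R.2.2.1 && !(P2 X e R g s (pa X e R g s) false)

/-- the requirement wants to act -/
def act (e : ℕ) (R : Rc) (g : List ℕ × List ℕ) (s : ℕ) : Bool :=
  cond R.2.2.1 (decide (R.2.2.2.2 < 2 ^ R.2.2.2.1) && P2 X e R g s (pa X e R g s) (pb X e R g s))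
    (P1 X e R.1 s)

/-- the record at a position -/
def rd (q : St) (s e : ℕ) : Rc := q.1.getD e (s, s, false, 0, 0)

/-- the position that is treated -/
def mu (q : St) (s : ℕ) : ℕ := mub q.1.length fun e => act X e (rd q s e) q.2.1 s

/-- the new record -/
def nw (R : Rc) (s : ℕ) (b : Bool) : Rc :=
  (R.1, s, b, cond R.2.2.1 R.2.2.2.1 s, cond R.2.2.1 (R.2.2.2.2 + 1) 0)

/-- a flip of a colouring -/
def flp (a : Bool) (t : ℕ) (g : List ℕ) : List ℕ := cond a (t :: g) g

/-- one stage, given the position and its record -/
def step' (q : St) (s m : ℕ) (R : Rc) : St :=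
  (q.1.take m ++ [nw R s (decide (m < q.1.length))],
    (flp (pa X m R q.2.1 s) R.2.1 q.2.1.1, flp (pb X m R q.2.1 s) R.2.1 q.2.1.2), R.1)

/-- one stage -/
def step (q : St) (s : ℕ) : St := step' X q s (mu X q s) (rd q s (mu X q s))

/-- the construction -/
def st : ℕ → St
  | 0 => ([], ([], []), 0)
  | s + 1 => step X (st s) s

/-- the colourings of a state -/
def Gq (q : St) (c : Bool) : List ℕ := cond c q.2.1.2 q.2.1.1

/-- the condition imposed at a stage -/
def ok (q : St) (c : Bool) (u : ℕ) (τ : List Bool) : Bool :=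
  allb u fun x => allb u fun y => !(decide (q.2.2 ≤ x) && decide (q.2.2 ≤ y)) ||
    decide (xor (τ.getD x false) (τ.getD y false) = xor (col (Gq q c) x) (col (Gq q c) y))

/-- the trees -/
def Yb (f : ℕ → St) (c : Bool) (τ : List Bool) : Bool :=
  allb τ.length fun u => ok (f (u + 1)) c u τ

variable {X}

@[fun_prop] theorem c_P1 (hX : Computable X) {e r s : α → ℕ} (h0 : Computable e)
    (h1 : Computable r) (h2 : Computable s) : Computable fun x => P1 X (e x) (r x) (s x) := by
  unfold P1
  fun_prop

@[fun_prop] theorem c_P2 (hX : Computable X) {e s : α → ℕ} {R : α → Rc} {g : α → List ℕ × List ℕ}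
    {a b : α → Bool} (h0 : Computable e) (h1 : Computable R) (h2 : Computable g)
    (h3 : Computable s) (h4 : Computable a) (h5 : Computable b) :
    Computable fun x => P2 X (e x) (R x) (g x) (s x) (a x) (b x) := by
  unfold P2
  fun_prop

@[fun_prop] theorem c_pa (hX : Computable X) {e s : α → ℕ} {R : α → Rc} {g : α → List ℕ × List ℕ}
    (h0 : Computable e) (h1 : Computable R) (h2 : Computable g) (h3 : Computable s) :
    Computable fun x => pa X (e x) (R x) (g x) (s x) := by
  unfold pa
  fun_prop

@[fun_prop] theorem c_pb (hX : Computable X) {e s : α → ℕ} {R : α → Rc} {g : α → List ℕ × List ℕ}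
    (h0 : Computable e) (h1 : Computable R) (h2 : Computable g) (h3 : Computable s) :
    Computable fun x => pb X (e x) (R x) (g x) (s x) := by
  unfold pb
  fun_prop

@[fun_prop] theorem c_act (hX : Computable X) {e s : α → ℕ} {R : α → Rc} {g : α → List ℕ × List ℕ}
    (h0 : Computable e) (h1 : Computable R) (h2 : Computable g) (h3 : Computable s) :
    Computable fun x => act X (e x) (R x) (g x) (s x) := by
  unfold act
  fun_prop

@[fun_prop] theorem c_rd {q : α → St} {s e : α → ℕ} (h0 : Computable q) (h1 : Computable s)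
    (h2 : Computable e) : Computable fun x => rd (q x) (s x) (e x) := by
  unfold rd
  fun_prop

@[fun_prop] theorem c_mu (hX : Computable X) {q : α → St} {s : α → ℕ} (h0 : Computable q)
    (h1 : Computable s) : Computable fun x => mu X (q x) (s x) := by
  unfold mu
  fun_prop

@[fun_prop] theorem c_step' (hX : Computable X) {q : α → St} {s m : α → ℕ} {R : α → Rc}
    (h0 : Computable q) (h1 : Computable s) (h2 : Computable m) (h3 : Computable R) :
    Computable fun x => step' X (q x) (s x) (m x) (R x) := by
  unfold step' nw flp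
  fun_prop

theorem c_st (hX : Computable X) : Computable (st X) := by
  have h : Computable₂ fun (_ : ℕ) (p : ℕ × St) => step X p.2 p.1 := by
    unfold step Computable₂
    fun_prop
  refine (Computable.nat_rec Computable.id (c_const (st X 0)) h).of_eq fun n => ?_
  induction n with
  | zero => rfl
  | succ k ih => exact congrArg (fun q => step X q k) ih

@[fun_prop] theorem c_ok {q : α → St} {c : α → Bool} {u : α → ℕ} {τ : α → List Bool}
    (h0 : Computable q) (h1 : Computable c) (h2 : Computable u) (h3 : Computable τ) :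
    Computable fun x => ok (q x) (c x) (u x) (τ x) := by
  unfold ok Gq
  fun_prop

theorem c_Yb {f : ℕ → St} (h : Computable f) (c : Bool) : Computable (Yb f c) := by
  unfold Yb
  fun_prop

end Comp

end Pool.Agent.Lib.MP_aa609a_lc
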