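import Pool.Agent.Lib.MP_aa609a_lc.Main

/-!
No computable instance of the Ramsey-type weak König lemma is universal through reductions whose
functional is chosen on countably many closed pieces (uniform and learnable reductions).
-/

namespace Pool.Agent.Lib.MP_aa609a_lc.ClosedPieces

open Pool.Agent.Lib.MP_aa609a_lc

theorem result (X : List Bool → Prop) (hX : IsInst X) : ∃ Y : List Bool → Prop, IsInst Y ∧
    ∀ (A : ℕ → Set (ℕ → Bool)) (W : ℕ → List Bool × ℕ → Prop), (∀ n, IsClosed (A n)) →
      (∀ n, REPred (W n)) →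
      (∀ n, ∀ H ∈ A n, Sol X {i | H i = true} → Sol Y (Out (W n) H)) →
      ∃ H : ℕ → Bool, Sol X {i | H i = true} ∧ ∀ n, H ∉ A n :=
  exists_inst hX

end Pool.Agent.Lib.MP_aa609a_lc.ClosedPieces
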