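import Pool.Agent.Lib.MP_aa609a_lc.Verify

/-! Every requirement is met. -/

namespace Pool.Agent.Lib.MP_aa609a_lc

open Pool.Agent.Shared.Oracle Filter Encodable Nat.Partrec

theorem ulim (f : ℕ → ℕ → Bool) :
    ∃ P : ℕ → Bool, ∀ k, ∀ᶠ s in (hyperfilter ℕ : Filter ℕ), ∀ i < k, f s i = P i := by
  have h : ∀ i, ∃ b, ∀ᶠ s in (hyperfilter ℕ : Filter ℕ), f s i = b := fun i =>
    Bool.exists_bool.2 (Ultrafilter.eventually_or.1 (Eventually.of_forall fun s => by
      cases f s i <;> simp))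
  choose P hP using h
  exact ⟨P, fun k => (eventually_all_finite (Set.finite_lt_nat k)).2 fun i _ => hP i⟩

theorem ev_ge (N : ℕ) : ∀ᶠ s in (hyperfilter ℕ : Filter ℕ), N ≤ s :=
  Nat.hyperfilter_le_atTop (eventually_ge_atTop N)

/-- `w` is an index of `W` -/
def Idx (W : List Bool × ℕ → Prop) (w : ℕ) : Prop :=
  ∀ a, W a ↔ ∃ t, (Code.evaln t (Denumerable.ofNat Code w) (encode a)).isSome = true

theorem exists_idx {W : List Bool × ℕ → Prop} (hW : REPred W) : ∃ w, Idx W w := by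
  obtain ⟨c, hc⟩ := Code.exists_code.1 hW
  refine ⟨encode c, fun a => ?_⟩
  have h1 : W a ↔ ∃ x, x ∈ Code.eval c (encode a) := by
    rw [hc]
    simp [Part.mem_assert_iff]
  rw [h1, Denumerable.ofNat_encode]
  simp only [Code.evaln_complete, Option.isSome_iff_exists, Option.mem_def]
  exact exists_comm

theorem out_iff {w s ρ x : ℕ} : out w s ρ x = true ↔
    ∃ k ≤ s, (Code.evaln s (Denumerable.ofNat Code w) (encode (sg ρ k, x))).isSome = true := by
  simp only [out, exb_iff, Nat.lt_succ_iff]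

theorem isSome_mono {c : Code} {s s' n : ℕ} (h : s ≤ s') (k : (Code.evaln s c n).isSome = true) :
    (Code.evaln s' c n).isSome = true := by
  obtain ⟨v, hv⟩ := Option.isSome_iff_exists.1 k
  exact Option.isSome_iff_exists.2 ⟨v, Code.evaln_mono h hv⟩

theorem out_mono {w s s' ρ ρ' x : ℕ} (h : out w s ρ x = true) (hs : s ≤ s')
    (hρ : ∀ i < s, ρ.testBit i = ρ'.testBit i) : out w s' ρ' x = true := by
  obtain ⟨k, h1, h2⟩ := out_iff.1 h
  refine out_iff.2 ⟨k, h1.trans hs, ?_⟩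
  rw [show sg ρ' k = sg ρ k from seg_congr.2 fun i hi => (hρ i (hi.trans_le h1)).symm]
  exact isSome_mono hs h2

variable {W : List Bool × ℕ → Prop} {w : ℕ}

theorem Idx.mem (h : Idx W w) {s ρ x : ℕ} {H : ℕ → Bool} (h1 : out w s ρ x = true)
    (h2 : ∀ i < s, ρ.testBit i = H i) : x ∈ Out W H := by
  obtain ⟨k, h3, h4⟩ := out_iff.1 h1
  rw [show sg ρ k = seg H k from seg_congr.2 fun i hi => h2 i (hi.trans_le h3)] at h4
  exact ⟨k, (h _).2 ⟨s, h4⟩⟩

theorem Idx.out (h : Idx W w) {x : ℕ} {H : ℕ → Bool} (h1 : x ∈ Out W H) :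
    ∃ K, ∀ ρ, (∀ i < K, ρ.testBit i = H i) → out w K ρ x = true := by
  obtain ⟨k, h2⟩ := h1
  obtain ⟨t, h3⟩ := (h _).1 h2
  refine ⟨max k t, fun ρ hρ => out_iff.2 ⟨k, le_max_left _ _, ?_⟩⟩
  rw [show sg ρ k = seg H k from seg_congr.2 fun i hi => hρ i (hi.trans_le (le_max_left _ _))]
  exact isSome_mono (le_max_right _ _) h3

theorem exists_trunc (H : ℕ → Bool) {K s : ℕ} (h : K ≤ s) : ∃ ρ < 2 ^ s,
    (∀ i < K, ρ.testBit i = H i) ∧ ∀ i < s, ρ.testBit i = true → i < K ∧ H i = true := by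
  obtain ⟨ρ, h1, -, h2⟩ := exists_sg (fun i => decide (i < K) && H i) s
  refine ⟨ρ, h1, fun i hi => ?_, fun i hi k => ?_⟩
  · simp [h2 i (hi.trans_le h), hi]
  · simpa [h2 i hi] using k

/-- a stem followed by a set -/
def glue (K ρ : ℕ) (Q : ℕ → Bool) (i : ℕ) : Bool := if i < K then ρ.testBit i else Q i

theorem glue_lt {K ρ i : ℕ} {Q : ℕ → Bool} (h : i < K) : glue K ρ Q i = ρ.testBit i := if_pos h

theorem glue_inf (K ρ : ℕ) {Q : ℕ → Bool} (h : {i | Q i = true}.Infinite) :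
    {i | glue K ρ Q i = true}.Infinite :=
  (h.sdiff (Set.finite_lt_nat K)).mono fun _ hi => (if_neg hi.2).trans hi.1

theorem glue_sub {K ρ : ℕ} {Q : ℕ → Bool} {p : ℕ → Prop} (h1 : ∀ i < K, ρ.testBit i = true → p i)
    (h2 : ∀ i, Q i = true → p i) (i : ℕ) (h : glue K ρ Q i = true) : p i := by
  unfold glue at h
  split_ifs at h with k
  exacts [h1 i k h, h2 i h]

variable {X : List Bool → Bool}

theorem path_lim (hT : ∀ σ τ : List Bool, σ <+: τ → X τ = true → X σ = true) {τ : ℕ → ℕ}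
    {P : ℕ → Bool} (h1 : ∀ k, ∀ᶠ s in (hyperfilter ℕ : Filter ℕ), ∀ i < k, (τ s).testBit i = P i)
    (h2 : ∀ᶠ s in (hyperfilter ℕ : Filter ℕ), X (sg (τ s) s) = true) : Path X P := by
  intro k
  obtain ⟨s, k1, k2, k3⟩ := ((h1 k).and (h2.and (ev_ge k))).exists
  rw [← seg_congr.2 k1]
  exact hT _ _ (seg_prefix _ k3) k2

theorem agree_lim {τ : ℕ → ℕ} {P : ℕ → Bool} {n σ : ℕ}
    (h1 : ∀ k, ∀ᶠ s in (hyperfilter ℕ : Filter ℕ), ∀ i < k, (τ s).testBit i = P i)
    (h2 : ∀ᶠ s in (hyperfilter ℕ : Filter ℕ), agree n (τ s) σ = true) :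
    ∀ i < n, P i = σ.testBit i := by
  obtain ⟨s, k1, k2⟩ := ((h1 n).and h2).exists
  exact fun i hi => (k1 i hi).symm.trans (agree_iff.1 k2 i hi)

theorem all_false : ∀ v : Bool → Bool → Bool, v (!(v false false || v false true))
    (!(v (!(v false false || v false true)) false)) = false → ∀ a b, v a b = false := by decide

theorem cells : ∀ v : Bool → Bool → Bool, ∃ c : Bool, ∀ a : Bool, ∃ p : Bool × Bool,
    v p.1 p.2 = c ∧ cond c p.2 p.1 = a := by decide

theorem core (hT : ∀ σ τ : List Bool, σ <+: τ → X τ = true → X σ = true)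
    (hinf : ∀ P, Path X P → ∀ c, {i | P i = c}.Infinite) (n σ : ℕ) (F : Bool → ℕ)
    {W : Bool → List Bool × ℕ → Prop} (hW : ∀ c, REPred (W c)) {P₀ : ℕ → Bool} (hP : Path X P₀)
    (hσ : ∀ i < n, P₀ i = σ.testBit i) (hF : ∀ c, ∀ i < n, (F c).testBit i = true → P₀ i = c) :
    ∃ c P H, Path X P ∧ (∀ i < n, P i = σ.testBit i) ∧ (∀ i < n, H i = (F c).testBit i) ∧
      (∀ i, H i = true → P i = c) ∧ {i | H i = true}.Infinite ∧ ¬ Sol (Y X c) (Out (W c) H) := by
  choose w hw using fun c => exists_idx (hW c)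
  obtain ⟨e, rfl, rfl, e1, e2⟩ := exists_data n σ F w
  obtain rfl : dF e = F := funext e1
  obtain rfl : dW e = w := funext e2
  obtain ⟨s₀, h⟩ := exists_limit X e
  have h4 := inv4 X s₀ e
  generalize R X s₀ e = Q at h h4
  obtain ⟨r, t, f, l, j⟩ := Q
  have hinf' : ∀ P, Path X P → ∀ c, {i | decide (P i = c) = true}.Infinite := fun P k c => by
    simpa using hinf P k c
  cases f
  · have h1 : ∀ s, ∃ τ c, max s₀ (dn e) ≤ s → agree (dn e) τ (ds e) = true ∧ X (sg τ s) = true ∧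
        ¬ ev1 e c r s τ = true := by
      intro s
      by_contra hc
      push Not at hc
      have h2 := h s ((le_max_left _ _).trans (hc 0 false).1)
      have h3 := (P1_iff X).2 ⟨(le_max_right _ _).trans (hc 0 false).1,
        fun τ _ k1 k2 c => (hc τ c).2 k1 k2⟩
      exact Bool.noConfusion (h3.symm.trans h2)
    choose τ cs h1 using h1
    obtain ⟨P, p1⟩ := ulim fun s => (τ s).testBit
    obtain ⟨c, p2⟩ := ulim fun s _ => cs s
    have p3 := (ev_ge _).mono h1
    have p4 := path_lim hT p1 (p3.mono fun s k => k.2.1)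
    have p5 := agree_lim p1 (p3.mono fun s k => k.1)
    have p6 := glue_sub (K := dn e) (ρ := dF e (c 0)) (Q := fun i => decide (P i = c 0))
      (p := fun i => P i = c 0)
      (fun i hi k => ((p5 i hi).trans (hσ i hi).symm).trans (hF _ i hi k))
      fun i k => of_decide_eq_true k
    refine ⟨c 0, P, _, p4, p5, fun i hi => glue_lt hi, p6, glue_inf _ _ (hinf' P p4 _),
      fun k => k.1 ((Set.finite_lt_nat r).subset fun x hx => ?_)⟩
    by_contra hc
    obtain ⟨K, k1⟩ := (hw _).out hx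
    obtain ⟨s, k2, k3, k4, k5, k6⟩ := ((p1 (max K (dn e))).and ((p2 1).and (p3.and
      ((ev_ge (max K (dn e))).and (ev_ge (x + 1)))))).exists
    obtain ⟨ρ, q1, q2, q3⟩ :=
      exists_trunc (glue (dn e) (dF e (c 0)) fun i => decide (P i = c 0)) k5
    refine k4.2.2 ?_
    rw [k3 0 one_pos]
    simp only [ev1, exb_iff, Bool.and_eq_true, decide_eq_true_eq]
    exact ⟨ρ, q1, ⟨agree_iff.2 fun i hi => (q2 i (hi.trans_le (le_max_right _ _))).trans
      (glue_lt hi), sub_iff.2 fun i hi k => (k2 i (q3 i hi k).1).trans (p6 i (q3 i hi k).2)⟩,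
      x, k6, not_lt.1 hc, out_mono (k1 ρ fun i hi => q2 i (hi.trans_le (le_max_left _ _)))
        ((le_max_left _ _).trans k5) fun _ _ => rfl⟩
  obtain ⟨k1, k2, k3⟩ := h4 rfl
  obtain ⟨k4, k5⟩ := (P1_iff X).1 k2
  change l ≤ t at k1
  change dn e ≤ l at k4
  by_cases hj : j < 2 ^ l
  swap
  · obtain ⟨j', j1, -, j2⟩ := exists_sg P₀ l
    obtain ⟨c, s, ρ, x, y, q1, q2, q3, q4, q5, q6⟩ := k3 j' (j1.trans_le (not_lt.1 hj)) P₀ hP hσ
      fun i hi => (j2 i hi).symm
    exact ⟨c, P₀, glue s ρ fun i => decide (P₀ i = c), hP, hσ,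
      fun i hi => (glue_lt (hi.trans_le q1)).trans (agree_iff.1 q2 i hi),
      glue_sub q3 fun i k => of_decide_eq_true k, glue_inf _ _ (hinf' P₀ hP _),
      q6.not_sol X ((hw c).mem q4 fun i hi => (glue_lt hi).symm)
        ((hw c).mem q5 fun i hi => (glue_lt hi).symm)⟩
  have h1 : ∀ a b s, ∃ τ, s₀ ≤ s → agree (dn e) τ (ds e) = true ∧ agree l τ j = true ∧
      X (sg τ s) = true ∧ ∀ c, ¬ ev2 e c (G X s c) (cond c b a) r t s τ = true := by
    intro a b s
    by_contra hc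
    push Not at hc
    have h2 := h s (hc 0).1
    have h3 : P2 X e (r, t, true, l, j) (st X s).2.1 s a b = false := by
      refine all_false (P2 X e (r, t, true, l, j) (st X s).2.1 s) ?_ a b
      simpa [act, hj, pa, pb] using h2
    have h5 := (P2_iff X (Q := (r, t, true, l, j)) (g := (st X s).2.1) (a := a) (b := b)).2
      fun τ _ u1 u2 u3 => Bool.exists_bool.1 ((hc τ).2 u1 u2 u3)
    exact Bool.noConfusion (h5.symm.trans h3)
  choose τ h1 using h1
  choose P p1 using fun a b => ulim fun s => (τ a b s).testBit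
  have p3 := fun a b => (ev_ge _).mono (h1 a b)
  have p4 := fun a b => path_lim hT (p1 a b) ((p3 a b).mono fun s k => k.2.2.1)
  have p5 := fun a b => agree_lim (p1 a b) ((p3 a b).mono fun s k => k.1)
  have p6 := fun a b => agree_lim (p1 a b) ((p3 a b).mono fun s k => k.2.1)
  obtain ⟨v, hv⟩ := Finite.exists_infinite_fiber fun i a b => P a b i
  obtain ⟨c, hc⟩ := cells v
  choose p hp hp' using hc
  have k6 := k5 j hj (agree_iff.2 fun i hi =>
    (p6 false false i (hi.trans_le k4)).symm.trans (p5 false false i hi))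
    ((show seg (P false false) l = sg j l from seg_congr.2 (p6 false false)) ▸ p4 false false l) c
  simp only [ev1, exb_iff, Bool.and_eq_true, decide_eq_true_eq] at k6
  obtain ⟨ρ₀, -, ⟨r1, r2⟩, x, r3, r4, r5⟩ := k6
  have p7 := fun a => glue_sub (K := l) (ρ := ρ₀)
    (Q := fun i => decide ((fun a b => P a b i) = v)) (p := fun i => P (p a).1 (p a).2 i = c)
    (fun i hi k => (p6 _ _ i hi).trans (sub_iff.1 r2 i hi k))
    fun i k => by rw [← hp a, ← of_decide_eq_true k]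
  refine ⟨c, _, _, p4 _ _, p5 _ _, fun i hi => (glue_lt (hi.trans_le k4)).trans
    (agree_iff.1 r1 i hi), p7 false, glue_inf _ _ ((Set.infinite_coe_iff.1 hv).mono fun i hi =>
      decide_eq_true hi), fun k => k.1 ((Set.finite_lt_nat t).subset fun y hy => ?_)⟩
  by_contra hc
  obtain ⟨K, u1⟩ := (hw _).out hy
  obtain ⟨s, u2, u3, u4, u5⟩ := ((eventually_all.2 fun a => p1 (p a).1 (p a).2 (max K l)).and
    ((ev_ge s₀).and ((ev_ge (max K l)).and (ev_ge (y + 1))))).exists
  obtain ⟨ρ, q1, q2, q3⟩ :=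
    exists_trunc (glue l ρ₀ fun i => decide ((fun a b => P a b i) = v)) u4
  have key : ∀ a, ¬ xor (col (G X s c) x) (xor (col (G X s c) y) a) = true := by
    intro a ha
    refine (h1 (p a).1 (p a).2 s u3).2.2.2 c ?_
    rw [hp' a]
    simp only [ev2, exb_iff, Bool.and_eq_true, decide_eq_true_eq]
    have q4 : ∀ i < l, ρ₀.testBit i = ρ.testBit i := fun i hi =>
      ((q2 i (hi.trans_le (le_max_right _ _))).trans (glue_lt hi)).symm
    exact ⟨ρ, q1, ⟨agree_iff.2 fun i hi => (q4 i (hi.trans_le k4)).symm.trans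
      (agree_iff.1 r1 i hi), sub_iff.2 fun i hi k =>
        (u2 a i (q3 i hi k).1).trans (p7 a i (q3 i hi k).2)⟩, x, r3.trans_le k1,
      ⟨r4, out_mono r5 ((le_max_right _ _).trans u4) q4⟩, y, u5, ⟨not_lt.1 hc,
        out_mono (u1 ρ fun i hi => q2 i (hi.trans_le (le_max_left _ _)))
          ((le_max_left _ _).trans u4) fun _ _ => rfl⟩, ha⟩
  have z1 := key false
  have z2 := key true
  revert z1 z2
  cases col (G X s c) x <;> cases col (G X s c) y <;> simp

end Pool.Agent.Lib.MP_aa609a_lc
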