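import Mathlib

/-! Instances and solutions of the Ramsey-type weak König lemma. -/

namespace Pool.Agent.Lib.MP_aa609a_lc

/-- `T` is a computable infinite binary tree. -/
def IsInst (T : List Bool → Prop) : Prop :=
  ComputablePred T ∧ (∀ σ τ : List Bool, σ <+: τ → T τ → T σ) ∧ {σ | T σ}.Infinite

/-- `H` is an infinite set that is homogeneous for the tree `T`. -/
def Sol (T : List Bool → Prop) (H : Set ℕ) : Prop :=
  H.Infinite ∧
    {σ | T σ ∧ ∃ c : Bool, ∀ i ∈ H, ∀ b : Bool, σ[i]? = some b → b = c}.Infinite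

/-- The set enumerated by the operator `W` from the oracle `H`. -/
def Out (W : List Bool × ℕ → Prop) (H : ℕ → Bool) : Set ℕ :=
  {x | ∃ k : ℕ, W ((List.range k).map H, x)}

end Pool.Agent.Lib.MP_aa609a_lc
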