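import Pool.Agent.Lib.MP_aa609a_lc.Core

/-! The Baire category argument. -/

namespace Pool.Agent.Lib.MP_aa609a_lc

open Pool.Agent.Shared.Oracle Pool.Agent.Shared.Oracle.FP Filter Topology

/-- no countable family of closed pieces with one operator each reduces `Y` to `X` -/
def Beats (X Y : List Bool → Prop) : Prop :=
  ∀ (A : ℕ → Set (ℕ → Bool)) (W : ℕ → List Bool × ℕ → Prop), (∀ n, IsClosed (A n)) →
    (∀ n, REPred (W n)) →
    (∀ n, ∀ H ∈ A n, Sol X {i | H i = true} → Sol Y (Out (W n) H)) →
    ∃ H : ℕ → Bool, Sol X {i | H i = true} ∧ ∀ n, H ∉ A n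

variable {X : List Bool → Bool}

theorem sol_of_path {P : ℕ → Bool} (hP : Path X P) {c : Bool} {H : Set ℕ} (h1 : ∀ i ∈ H, P i = c)
    (h2 : H.Infinite) : Sol (fun σ => X σ = true) H := by
  refine ⟨h2, Set.infinite_of_injective_forall_mem (f := seg P)
    (fun a b h => by simpa using congrArg List.length h) fun n => ⟨hP n, c, fun i hi b hb => ?_⟩⟩
  rw [seg_getElem?] at hb
  split_ifs at hb
  exact (Option.some.inj hb).symm.trans (h1 i hi)

theorem exists_path (hT : ∀ σ τ : List Bool, σ <+: τ → X τ = true → X σ = true)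
    (hI : {σ | X σ = true}.Infinite) : ∃ P, Path X P := by
  have h : ∀ s, ∃ τ, X (sg τ s) = true := by
    intro s
    obtain ⟨σ, h1, h2⟩ := hI.exists_notMem_finite (List.finite_length_lt Bool s)
    obtain ⟨τ, -, h3, -⟩ := exists_sg (fun i => σ.getD i false) s
    refine ⟨τ, hT _ σ ?_ h1⟩
    have h4 : s ≤ σ.length := not_lt.1 h2
    rw [h3, List.prefix_iff_eq_take, seg_length]
    refine List.ext_getElem (by simp [h4]) fun i k1 k2 => ?_
    rw [seg_length] at k1
    simp [seg, k1.trans_le h4]
  choose τ h using h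
  obtain ⟨P, hP⟩ := ulim fun s => (τ s).testBit
  exact ⟨P, path_lim hT hP (Eventually.of_forall h)⟩

/-- a path with a subset of each side -/
def KK (X : List Bool → Bool) : Set ((ℕ → Bool) × (Bool → ℕ → Bool)) :=
  {z | Path X z.1 ∧ ∀ c i, z.2 c i = true → z.1 i = c}

theorem isClosed_KK : IsClosed (KK X) := by
  have h : KK X = (⋂ k, Prod.fst ⁻¹' {P | X (seg P k) = true}) ∩
      ⋂ c, ⋂ i,
        {z : (ℕ → Bool) × (Bool → ℕ → Bool) | (!(z.2 c i) || decide (z.1 i = c)) = true} := by
    ext z
    simp only [KK, Path, Set.mem_ofPred_eq, Set.mem_inter_iff, Set.mem_iInter, Set.mem_preimage]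
    refine and_congr Iff.rfl (forall₂_congr fun c i => ?_)
    cases z.2 c i <;> simp
  rw [h]
  refine (isClosed_iInter fun k => (isClopen_seg (fun σ => X σ = true) k).isClosed.preimage
    continuous_fst).inter (isClosed_iInter fun c => isClosed_iInter fun i => ?_)
  exact isClosed_eq ((continuous_of_discreteTopology
    (f := fun q : Bool × Bool => !q.1 || decide (q.2 = c))).comp
    (f := fun z : (ℕ → Bool) × (Bool → ℕ → Bool) => (z.2 c i, z.1 i)) (by fun_prop))
    continuous_const

theorem exists_level {S : Set (KK X)} {z : KK X} (h : z ∈ interior S) : ∃ k, ∀ z' : KK X,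
    (∀ i < k, z'.1.1 i = z.1.1 i) → (∀ c, ∀ i < k, z'.1.2 c i = z.1.2 c i) → z' ∈ S := by
  by_contra hc
  push Not at hc
  choose y h1 h2 h3 using hc
  have h4 : Tendsto y atTop (𝓝 z) := by
    refine tendsto_subtype_rng.2 ((Prod.tendsto_iff _ _).2 ⟨tendsto_pi_nhds.2 fun i => ?_,
      tendsto_pi_nhds.2 fun c => tendsto_pi_nhds.2 fun i => ?_⟩)
    · exact tendsto_const_nhds.congr' ((eventually_gt_atTop i).mono fun k hk => (h1 k i hk).symm)
    · exact tendsto_const_nhds.congr'
        ((eventually_gt_atTop i).mono fun k hk => (h2 k c i hk).symm)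
  obtain ⟨k, hk⟩ := (h4.eventually (mem_interior_iff_mem_nhds.1 h)).exists
  exact h3 k hk

theorem exists_beats (hT : ∀ σ τ : List Bool, σ <+: τ → X τ = true → X σ = true)
    (hI : {σ | X σ = true}.Infinite) (hinf : ∀ P, Path X P → ∀ c, {i | P i = c}.Infinite) :
    ∃ c, Beats (fun σ => X σ = true) (Y X c) := by
  by_contra hc
  simp only [Beats, not_exists, not_forall, not_and, not_not, exists_prop] at hc
  choose A W h1 h2 h3 h4 using hc
  obtain ⟨P₀, hP₀⟩ := exists_path hT hI
  have : Nonempty (KK X) := ⟨⟨(P₀, fun _ _ => false), hP₀, by simp⟩⟩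
  have : CompactSpace (KK X) := isCompact_iff_compactSpace.1 isClosed_KK.isCompact
  obtain ⟨ι, z, hz⟩ := nonempty_interior_of_iUnion_of_closed (X := KK X)
    (f := fun ι : (Bool → ℕ) ⊕ Bool × ℕ => ι.elim (fun n => {z | ∀ c, z.1.2 c ∈ A c (n c)})
      fun q => {z | ∀ i, q.2 ≤ i → z.1.2 q.1 i = false}) (by
    rintro (n | q)
    · simp only [Sum.elim_inl, Set.ofPred_forall]
      exact isClosed_iInter fun c => (h1 c (n c)).preimage (by fun_prop)
    · simp only [Sum.elim_inr, Set.ofPred_forall]
      exact isClosed_iInter fun i => isClosed_iInter fun _ =>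
        isClosed_eq (by fun_prop) continuous_const) (by
    refine Set.eq_univ_of_forall fun z => Set.mem_iUnion.2 ?_
    by_cases h : ∀ c, {i | z.1.2 c i = true}.Infinite
    · choose n hn using fun c => h4 c _ (sol_of_path z.2.1 (z.2.2 c) (h c))
      exact ⟨Sum.inl n, hn⟩
    · obtain ⟨c, h5⟩ := not_forall.1 h
      obtain ⟨N, hN⟩ := (Set.not_infinite.1 h5).bddAbove
      exact ⟨Sum.inr (c, N + 1), fun i hi => Bool.eq_false_iff.2 fun k =>
        absurd (hN k) (not_le.2 hi)⟩)
  obtain ⟨k, hk⟩ := exists_level hz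
  rcases ι with n | ⟨c, N⟩
  · obtain ⟨σ, -, -, s1⟩ := exists_sg z.1.1 k
    choose F _ _ s2 using fun c => exists_sg (z.1.2 c) k
    obtain ⟨c, P, H, q1, q2, q3, q4, q5, q6⟩ := core hT hinf k σ F (W := fun c => W c (n c))
      (fun c => h2 c _) z.2.1 (fun i hi => (s1 i hi).symm)
      fun c i hi h => z.2.2 c i ((s2 c i hi).symm.trans h)
    have q7 := hk ⟨(P, fun d => if d = c then H else glue k (F d) fun _ => false), q1, by
      intro d i h
      dsimp only at h ⊢
      split_ifs at h with e
      · exact e ▸ q4 i h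
      · exact glue_sub (p := fun i => P i = d) (fun i hi h => ((q2 i hi).trans (s1 i hi)).trans
          (z.2.2 d i ((s2 d i hi).symm.trans h))) (by simp) i h⟩
      (fun i hi => (q2 i hi).trans (s1 i hi)) (by
        intro d i hi
        dsimp only
        split_ifs with e
        · exact e ▸ (q3 i hi).trans (s2 c i hi)
        · exact (glue_lt hi).trans (s2 d i hi)) c
    exact q6 (h3 c _ H (by simpa using q7) (sol_of_path q1 q4 q5))
  · obtain ⟨i, h5, h6⟩ := (hinf _ z.2.1 c).exists_gt (max k N)
    have q7 := hk ⟨(z.1.1, fun d j => (decide (d = c) && decide (j = i)) || z.1.2 d j), z.2.1, by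
      intro d j h
      simp only [Bool.or_eq_true, Bool.and_eq_true, decide_eq_true_eq] at h
      rcases h with ⟨rfl, rfl⟩ | h
      exacts [h5, z.2.2 d j h]⟩ (fun _ _ => rfl) (fun d j hj => by
        have : j ≠ i := fun e => by omega
        simp [this]) i (by omega)
    simp at q7

theorem re_fix {W : List Bool × ℕ → Prop} (hW : REPred W) {H : ℕ → Bool} (hH : Computable H) :
    REPred fun a : List Bool × ℕ => ∃ k, W ((List.range k).map H, a.2) := by
  have h : Computable fun p : (List Bool × ℕ) × ℕ => ((List.range p.2).map H, p.1.2) :=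
    c_mk (c_map (g := fun _ i => H i) (c_range (c_snd c_id)) (hH.comp (c_snd c_id)))
      (c_snd (c_fst c_id))
  exact re_exists (R := fun (a : List Bool × ℕ) k => W ((List.range k).map H, a.2)) (re_comp hW h)

theorem exists_inst {X : List Bool → Prop} (hX : IsInst X) : ∃ Y, IsInst Y ∧ Beats X Y := by
  obtain ⟨h1, hT, hI⟩ := hX
  obtain ⟨X, hX, rfl⟩ := ComputablePred.computable_iff.1 h1
  by_cases hinf : ∀ P, Path X P → ∀ c, {i | P i = c}.Infinite
  · obtain ⟨c, hc⟩ := exists_beats hT hI hinf
    exact ⟨_, inst_Y X hX c, hc⟩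
  simp only [not_forall, Set.not_infinite] at hinf
  obtain ⟨P, hP, c, h2⟩ := hinf
  obtain ⟨N, hN⟩ := h2.bddAbove
  let Z : List Bool → Bool := fun σ => allb σ.length fun i => decide (σ.getD i false = i.testBit 0)
  have hZ : Computable Z := by fun_prop
  have z1 : ∀ σ, Z σ = true ↔ ∀ i < σ.length, σ.getD i false = i.testBit 0 := by simp [Z]
  obtain ⟨d, hd⟩ := exists_beats (X := Z) (by
      rintro σ _ ⟨ρ, rfl⟩ h
      rw [z1] at h ⊢
      intro i hi
      rw [← h i (by rw [List.length_append]; omega), List.getD_append _ _ _ _ hi])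
    (Set.infinite_of_injective_forall_mem (f := seg fun i => i.testBit 0)
      (fun a b h => by simpa using congrArg List.length h) fun n => (z1 _).2 fun i hi =>
        seg_getD _ (by simpa using hi)) (by
      intro Q hQ b
      refine Set.infinite_of_injective_forall_mem (f := fun n => 2 * n + b.toNat)
        (fun _ _ h => by simpa using h) fun n => ?_
      have h3 := (z1 _).1 (hQ (2 * n + b.toNat + 1)) (2 * n + b.toNat) (by simp)
      rw [seg_getD _ (Nat.lt_succ_self _)] at h3
      change Q _ = b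
      rw [h3, Nat.testBit_zero]
      cases b <;> simp)
  refine ⟨_, inst_Y Z hZ d, fun A W _ hW h3 => ?_⟩
  have h4 : Sol (fun σ => X σ = true) {i | decide (N < i) = true} := by
    refine sol_of_path hP (c := !c) (fun i hi => ?_) 
      ((Set.Ioi_infinite N).mono fun i hi => decide_eq_true hi)
    have h5 : ¬ P i = c := fun k => absurd (hN k) (not_le.2 (of_decide_eq_true hi))
    revert h5
    cases P i <;> cases c <;> simp
  refine ⟨fun i => decide (N < i), h4, fun n hn => ?_⟩
  have h5 := re_fix (hW n) (H := fun i => decide (N < i)) (c_decide_lt (c_const N) c_id)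
  obtain ⟨H, -, h6⟩ := hd (fun _ => Set.univ) _ (fun _ => isClosed_univ) (fun _ => h5)
    fun _ H _ _ => by
      convert h3 n _ hn h4 using 1
      ext x
      simp [Out]
  exact h6 0 trivial

end Pool.Agent.Lib.MP_aa609a_lc
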