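import Pool.Agent.Lib.MP_aa609a_lc.Core

/-! A finite injury construction of a sequence of parity trees, against requirements that carry
finitely many parts with their own stems. -/

namespace Pool.Agent.Lib.MP_aa609a_lc.Team

open Pool.Agent.Shared.Oracle Pool.Agent.Shared.Oracle.FP Encodable Nat.Partrec

/-- digits in base `K` -/
def dg (K τ i : ℕ) : ℕ := τ / K ^ i % K

/-- the first `k` digits -/
def lst (K τ k : ℕ) : List ℕ := (List.range k).map fun i => dg K τ i

/-- some initial segment is enumerated by the index `v` -/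
def forb (v K s τ : ℕ) : Bool :=
  exb (s + 1) fun k => (Code.evaln s (Denumerable.ofNat Code v) (encode (lst K τ k))).isSome

/-- two numbers have the same first `n` digits -/
def same (K n τ τ' : ℕ) : Bool := allb n fun i => decide (dg K τ i = dg K τ' i)

/-- the set coded by `ρ` has colour `p` from `n` on -/
def within (K p n s ρ τ : ℕ) : Bool :=
  allb s fun i => !(ρ.testBit i) || decide (i < n) || decide (dg K τ i = p)

/-- the colouring number `m` given by a list of cuts -/
def colr (m : ℕ) (g : List (ℕ × ℕ)) (x : ℕ) : Bool :=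
  g.foldr (fun t b => xor b (m.testBit t.2 && decide (t.1 ≤ x))) false

/-- nodes: level, colouring, stems, statuses -/
abbrev Nd : Type := ℕ × ℕ × List ℕ × List ℕ

/-- data: number of colours, index of the class, offset, operators; root -/
abbrev Dat : Type := (ℕ × ℕ × ℕ × List ℕ) × Nd

/-- the data of a requirement -/
def dat (e : ℕ) : Dat := (decode (α := Dat) e).getD ((0, 0, 0, []), (0, 0, [], []))

/-- the output `y` improves the status `a` -/
def prog (g : List (ℕ × ℕ)) (a m q y : ℕ) : Bool :=
  decide (a = 0) || (decide (2 ≤ a) && xor (colr m g (a - 2)) (xor (colr m g y) (m.testBit q)))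

/-- a witness of progress -/
def good (d : Dat) (ν : Nd) (g : List (ℕ × ℕ)) (t s q τ j ρ y : ℕ) : Bool :=
  decide (j < ν.2.2.2.length) && decide (ρ < 2 ^ s) && decide (y < s) &&
    agree ν.1 ρ (ν.2.2.1.getD j.unpair.1 0) && within d.1.1 j.unpair.1 ν.1 s ρ τ &&
      decide (t ≤ y) && out (d.1.2.2.2.getD j 0) s ρ y &&
        prog g (ν.2.2.2.getD j 1) j.unpair.2.unpair.1 q y

/-- a coded witness of progress -/
def gd (d : Dat) (ν : Nd) (g : List (ℕ × ℕ)) (t s q τ u : ℕ) : Bool :=
  good d ν g t s q τ u.unpair.1 u.unpair.2.unpair.1 u.unpair.2.unpair.2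

/-- a bound for the witnesses -/
def bnd (ν : Nd) (s : ℕ) : ℕ := Nat.pair ν.2.2.2.length (Nat.pair (2 ^ s) s)

/-- the colouring `τ` extends the node and is not yet forbidden -/
def alive (d : Dat) (ν : Nd) (s τ : ℕ) : Bool :=
  same d.1.1 ν.1 τ ν.2.1 && !(forb d.1.2.1 d.1.1 s τ)

/-- the event: every living colouring shows progress -/
def ev (d : Dat) (ν : Nd) (g : List (ℕ × ℕ)) (t s q : ℕ) : Bool :=
  decide (ν.1 ≤ s) && allb (d.1.1 ^ s) fun τ => !(alive d ν s τ) ||
    exb (bnd ν s) fun u => gd d ν g t s q τ u

/-- the child given by a witness -/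
def child' (d : Dat) (ν : Nd) (s τ j ρ y : ℕ) : Nd :=
  (s, τ, (List.range d.1.1).map fun p => cond (decide (p = j.unpair.1)) ρ (ν.2.2.1.getD p 0),
    (List.range ν.2.2.2.length).map fun i =>
      cond (decide (i = j)) (cond (decide (ν.2.2.2.getD i 1 = 0)) (y + 2) 1) (ν.2.2.2.getD i 1))

/-- the least witness -/
def wit (d : Dat) (ν : Nd) (g : List (ℕ × ℕ)) (t s q τ : ℕ) : ℕ :=
  mub (bnd ν s) fun u => gd d ν g t s q τ u

/-- the child given by a coded witness -/
def child (d : Dat) (ν : Nd) (s τ u : ℕ) : Nd :=
  child' d ν s τ u.unpair.1 u.unpair.2.unpair.1 u.unpair.2.unpair.2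

/-- the children -/
def kids (d : Dat) (ν : Nd) (g : List (ℕ × ℕ)) (t s q : ℕ) : List Nd :=
  (List.range (d.1.1 ^ s)).foldr
    (fun τ l => cond (alive d ν s τ) (child d ν s τ (wit d ν g t s q τ) :: l) l) []

/-- records: restraint, cut, open nodes -/
abbrev Rc : Type := ℕ × ℕ × List Nd

/-- states: stack of records, cuts, last restraint -/
abbrev St : Type := List Rc × List (ℕ × ℕ) × ℕ

/-- the first open node -/
def hd (R : Rc) : Nd := R.2.2.headD (0, 0, [], [])

/-- the first flip that shows the event -/
def bq (d : Dat) (R : Rc) (g : List (ℕ × ℕ)) (s : ℕ) : ℕ :=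
  mub (d.1.1 + 1) fun b => ev d (hd R) g R.2.1 s (d.1.2.2.1 + b)

/-- the requirement wants to act -/
def act (d : Dat) (R : Rc) (g : List (ℕ × ℕ)) (s : ℕ) : Bool :=
  decide (0 < R.2.2.length) && decide (bq d R g s < d.1.1 + 1)

/-- the record at a position -/
def rd (q : St) (s e : ℕ) : Rc := q.1.getD e (s, s, [(dat e).2])

/-- the position that is treated -/
def mu (q : St) (s : ℕ) : ℕ := mub q.1.length fun e => act (dat e) (rd q s e) q.2.1 s

/-- the new record -/
def nw (d : Dat) (R : Rc) (g : List (ℕ × ℕ)) (s : ℕ) (b : Bool) : Rc :=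
  (R.1, s, cond b (kids d (hd R) g R.2.1 s (d.1.2.2.1 + bq d R g s) ++ R.2.2.tail) R.2.2)

/-- the new cuts -/
def ng (d : Dat) (R : Rc) (g : List (ℕ × ℕ)) (s : ℕ) (b : Bool) : List (ℕ × ℕ) :=
  cond b ((R.2.1, d.1.2.2.1 + bq d R g s) :: g) g

/-- one stage, given the position and its record -/
def step' (q : St) (s m : ℕ) (d : Dat) (R : Rc) : St :=
  (q.1.take m ++ [nw d R q.2.1 s (decide (m < q.1.length))],
    ng d R q.2.1 s (decide (m < q.1.length)), R.1)

/-- one stage -/
def step (q : St) (s : ℕ) : St := step' q s (mu q s) (dat (mu q s)) (rd q s (mu q s))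

/-- the construction -/
def st : ℕ → St
  | 0 => ([], [], 0)
  | s + 1 => step (st s) s

/-- the condition imposed at a stage -/
def ok (q : St) (m u : ℕ) (τ : List Bool) : Bool :=
  allb u fun x => allb u fun y => !(decide (q.2.2 ≤ x) && decide (q.2.2 ≤ y)) ||
    decide (xor (τ.getD x false) (τ.getD y false) = xor (colr m q.2.1 x) (colr m q.2.1 y))

/-- the trees -/
def Yb (f : ℕ → St) (m : ℕ) (τ : List Bool) : Bool :=
  allb τ.length fun u => ok (f (u + 1)) m u τ

section Comp

variable {α : Type} [Primcodable α]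

@[fun_prop] theorem c_dg {K τ i : α → ℕ} (h1 : Computable K) (h2 : Computable τ)
    (h3 : Computable i) : Computable fun x => dg (K x) (τ x) (i x) := by
  unfold dg
  fun_prop

@[fun_prop] theorem c_lst {K τ i : α → ℕ} (h1 : Computable K) (h2 : Computable τ)
    (h3 : Computable i) : Computable fun x => lst (K x) (τ x) (i x) := by
  unfold lst
  fun_prop

@[fun_prop] theorem c_forb {v K s τ : α → ℕ} (h0 : Computable v) (h1 : Computable K)
    (h2 : Computable s) (h3 : Computable τ) :
    Computable fun x => forb (v x) (K x) (s x) (τ x) := by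
  unfold forb
  fun_prop

@[fun_prop] theorem c_same {v K s τ : α → ℕ} (h0 : Computable v) (h1 : Computable K)
    (h2 : Computable s) (h3 : Computable τ) :
    Computable fun x => same (v x) (K x) (s x) (τ x) := by
  unfold same
  fun_prop

@[fun_prop] theorem c_within {K p n s ρ τ : α → ℕ} (h0 : Computable K) (h1 : Computable p)
    (h2 : Computable n) (h3 : Computable s) (h4 : Computable ρ) (h5 : Computable τ) :
    Computable fun x => within (K x) (p x) (n x) (s x) (ρ x) (τ x) := by
  unfold within
  fun_prop

@[fun_prop] theorem c_colr {m n : α → ℕ} {g : α → List (ℕ × ℕ)} (h : Computable m)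
    (h0 : Computable g) (h1 : Computable n) : Computable fun x => colr (m x) (g x) (n x) := by
  unfold colr
  fun_prop

@[fun_prop] theorem c_dat {e : α → ℕ} (h : Computable e) : Computable fun x => dat (e x) := by
  unfold dat
  fun_prop

@[fun_prop] theorem c_prog {a m q y : α → ℕ} {g : α → List (ℕ × ℕ)} (h : Computable g)
    (h0 : Computable a) (h1 : Computable m) (h2 : Computable q) (h3 : Computable y) :
    Computable fun x => prog (g x) (a x) (m x) (q x) (y x) := by
  unfold prog
  fun_prop

@[fun_prop] theorem c_good {d : α → Dat} {ν : α → Nd} {g : α → List (ℕ × ℕ)}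
    {t s q τ j ρ y : α → ℕ} (h0 : Computable d) (h1 : Computable ν) (h2 : Computable g)
    (h3 : Computable t) (h4 : Computable s) (h5 : Computable q) (h6 : Computable τ)
    (h7 : Computable j) (h8 : Computable ρ) (h9 : Computable y) : Computable fun x =>
      good (d x) (ν x) (g x) (t x) (s x) (q x) (τ x) (j x) (ρ x) (y x) := by
  unfold good
  fun_prop

@[fun_prop] theorem c_gd {d : α → Dat} {ν : α → Nd} {g : α → List (ℕ × ℕ)}
    {t s q τ u : α → ℕ} (h0 : Computable d) (h1 : Computable ν) (h2 : Computable g)
    (h3 : Computable t) (h4 : Computable s) (h5 : Computable q) (h6 : Computable τ)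
    (h7 : Computable u) :
    Computable fun x => gd (d x) (ν x) (g x) (t x) (s x) (q x) (τ x) (u x) := by
  unfold gd
  fun_prop

@[fun_prop] theorem c_bnd {ν : α → Nd} {s : α → ℕ} (h1 : Computable ν) (h4 : Computable s) :
    Computable fun x => bnd (ν x) (s x) := by
  unfold bnd
  fun_prop

@[fun_prop] theorem c_alive {d : α → Dat} {ν : α → Nd} {s τ : α → ℕ} (h0 : Computable d)
    (h1 : Computable ν) (h4 : Computable s) (h6 : Computable τ) :
    Computable fun x => alive (d x) (ν x) (s x) (τ x) := by
  unfold alive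
  fun_prop

@[fun_prop] theorem c_ev {d : α → Dat} {ν : α → Nd} {g : α → List (ℕ × ℕ)}
    {t s q : α → ℕ} (h0 : Computable d) (h1 : Computable ν) (h2 : Computable g)
    (h3 : Computable t) (h4 : Computable s) (h5 : Computable q) :
    Computable fun x => ev (d x) (ν x) (g x) (t x) (s x) (q x) := by
  unfold ev
  fun_prop

@[fun_prop] theorem c_child' {d : α → Dat} {ν : α → Nd} {s τ j ρ y : α → ℕ} (h0 : Computable d)
    (h1 : Computable ν) (h4 : Computable s) (h6 : Computable τ) (h7 : Computable j)
    (h8 : Computable ρ) (h9 : Computable y) :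
    Computable fun x => child' (d x) (ν x) (s x) (τ x) (j x) (ρ x) (y x) := by
  unfold child'
  fun_prop

@[fun_prop] theorem c_wit {d : α → Dat} {ν : α → Nd} {g : α → List (ℕ × ℕ)}
    {t s q τ : α → ℕ} (h0 : Computable d) (h1 : Computable ν) (h2 : Computable g)
    (h3 : Computable t) (h4 : Computable s) (h5 : Computable q) (h6 : Computable τ) :
    Computable fun x => wit (d x) (ν x) (g x) (t x) (s x) (q x) (τ x) := by
  unfold wit
  fun_prop

@[fun_prop] theorem c_child {d : α → Dat} {ν : α → Nd} {s τ u : α → ℕ} (h0 : Computable d)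
    (h1 : Computable ν) (h4 : Computable s) (h6 : Computable τ) (h7 : Computable u) :
    Computable fun x => child (d x) (ν x) (s x) (τ x) (u x) := by
  unfold child
  fun_prop

@[fun_prop] theorem c_kids {d : α → Dat} {ν : α → Nd} {g : α → List (ℕ × ℕ)}
    {t s q : α → ℕ} (h0 : Computable d) (h1 : Computable ν) (h2 : Computable g)
    (h3 : Computable t) (h4 : Computable s) (h5 : Computable q) :
    Computable fun x => kids (d x) (ν x) (g x) (t x) (s x) (q x) := by
  unfold kids
  fun_prop

@[fun_prop] theorem c_hd {R : α → Rc} (h : Computable R) : Computable fun x => hd (R x) := by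
  unfold hd
  fun_prop

@[fun_prop] theorem c_bq {d : α → Dat} {R : α → Rc} {g : α → List (ℕ × ℕ)} {s : α → ℕ}
    (h0 : Computable d) (h1 : Computable R) (h2 : Computable g) (h4 : Computable s) :
    Computable fun x => bq (d x) (R x) (g x) (s x) := by
  unfold bq
  fun_prop

@[fun_prop] theorem c_act {d : α → Dat} {R : α → Rc} {g : α → List (ℕ × ℕ)} {s : α → ℕ}
    (h0 : Computable d) (h1 : Computable R) (h2 : Computable g) (h4 : Computable s) :
    Computable fun x => act (d x) (R x) (g x) (s x) := by
  unfold act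
  fun_prop

@[fun_prop] theorem c_rd {q : α → St} {s e : α → ℕ} (h0 : Computable q) (h1 : Computable s)
    (h2 : Computable e) : Computable fun x => rd (q x) (s x) (e x) := by
  unfold rd
  fun_prop

@[fun_prop] theorem c_mu {q : α → St} {s : α → ℕ} (h0 : Computable q)
    (h1 : Computable s) : Computable fun x => mu (q x) (s x) := by
  unfold mu
  fun_prop

@[fun_prop] theorem c_nw {d : α → Dat} {R : α → Rc} {g : α → List (ℕ × ℕ)} {s : α → ℕ}
    {b : α → Bool} (h0 : Computable d) (h1 : Computable R) (h2 : Computable g)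
    (h4 : Computable s) (h5 : Computable b) :
    Computable fun x => nw (d x) (R x) (g x) (s x) (b x) := by
  unfold nw
  fun_prop

@[fun_prop] theorem c_ng {d : α → Dat} {R : α → Rc} {g : α → List (ℕ × ℕ)} {s : α → ℕ}
    {b : α → Bool} (h0 : Computable d) (h1 : Computable R) (h2 : Computable g)
    (h4 : Computable s) (h5 : Computable b) :
    Computable fun x => ng (d x) (R x) (g x) (s x) (b x) := by
  unfold ng
  fun_prop

@[fun_prop] theorem c_step' {q : α → St} {s m : α → ℕ} {d : α → Dat} {R : α → Rc}
    (h0 : Computable q) (h1 : Computable s) (h2 : Computable m) (h4 : Computable d)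
    (h3 : Computable R) : Computable fun x => step' (q x) (s x) (m x) (d x) (R x) := by
  unfold step'
  fun_prop

theorem c_st : Computable st := by
  have h : Computable₂ fun (_ : ℕ) (p : ℕ × St) => step p.2 p.1 := by
    unfold step Computable₂
    fun_prop
  refine (Computable.nat_rec Computable.id (c_const (st 0)) h).of_eq fun n => ?_
  induction n with
  | zero => rfl
  | succ k ih => exact congrArg (fun q => step q k) ih

@[fun_prop] theorem c_ok {q : α → St} {c : α → ℕ} {u : α → ℕ} {τ : α → List Bool}
    (h0 : Computable q) (h1 : Computable c) (h2 : Computable u) (h3 : Computable τ) :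
    Computable fun x => ok (q x) (c x) (u x) (τ x) := by
  unfold ok
  fun_prop

theorem c_Yb {f : ℕ → St} (h : Computable f) (c : ℕ) : Computable (Yb f c) := by
  unfold Yb
  fun_prop

end Comp

end Pool.Agent.Lib.MP_aa609a_lc.Team
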