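import Pool.Agent.Lib.MP_aa609a_lc.TInv

/-! One round: a requirement is met on a class of tuples of colourings. -/

namespace Pool.Agent.Lib.MP_aa609a_lc.Team

open Pool.Agent.Shared.Oracle Pool.Agent.Shared.Oracle.FP Filter Encodable Nat.Partrec

/-- valid colourings -/
def Val (K : ℕ) (V : List ℕ → Bool) (c : ℕ → ℕ) : Prop :=
  (∀ i, c i < K) ∧ ∀ k, V ((List.range k).map c) = false

/-- the set lies between the stem and the colour -/
def Cell (n : ℕ) (F : ℕ → Bool) (p : ℕ) (c : ℕ → ℕ) (H : ℕ → Bool) : Prop :=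
  (∀ i < n, H i = F i) ∧ ∀ i, n ≤ i → H i = true → c i = p

/-- a coordinate of a tuple of colourings -/
def cp (K b : ℕ) (c : ℕ → ℕ) (i : ℕ) : ℕ := dg K (c i) b

/-- a large output on a set that has the same colour in two coordinates -/
def viol (d : Dat) (ν : Nd) (t : ℕ) (l : List ℕ) (b : ℕ) : Bool :=
  exb (d.1.1 + 1) fun b' => exb ν.2.2.2.length fun j => exb (2 ^ l.length) fun ρ =>
    exb l.length fun y => !(decide (ν.2.2.2.getD j 1 = 1)) &&
      xor (j.unpair.2.unpair.1.testBit (d.1.2.2.1 + b))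
        (j.unpair.2.unpair.1.testBit (d.1.2.2.1 + b')) &&
      agree ν.1 ρ (ν.2.2.1.getD j.unpair.1 0) &&
      (allb l.length fun i => !(ρ.testBit i) || decide (i < ν.1) ||
        (decide (dg d.1.1 (l.getD i 0) b = j.unpair.1) &&
          decide (dg d.1.1 (l.getD i 0) b' = j.unpair.1))) &&
      decide (t ≤ y) && out (d.1.2.2.2.getD j 0) l.length ρ y

/-- the new class -/
def nV (V : List ℕ → Bool) (d : Dat) (ν : Nd) (t : ℕ) (l : List ℕ) : Bool :=
  exb (d.1.1 + 1) fun b => V (l.map fun a => dg d.1.1 a b) ||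
    (exb l.length fun i => decide (i < ν.1) &&
      !(decide (dg d.1.1 (l.getD i 0) b = dg d.1.1 ν.2.1 i))) || viol d ν t l b

theorem c_viol (d : Dat) (ν : Nd) (t : ℕ) :
    Computable fun a : List ℕ × ℕ => viol d ν t a.1 a.2 := by
  unfold viol
  fun_prop

theorem c_nV {V : List ℕ → Bool} (h : Computable V) (d : Dat) (ν : Nd) (t : ℕ) :
    Computable (nV V d ν t) := by
  have := c_viol d ν t
  unfold nV
  fun_prop

theorem viol_iff {d : Dat} {ν : Nd} {t k b : ℕ} {c : ℕ → ℕ} :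
    viol d ν t ((List.range k).map c) b = true ↔ ∃ b' ≤ d.1.1, ∃ j < ν.2.2.2.length,
      ∃ ρ < 2 ^ k, ∃ y < k, stat ν j ≠ 1 ∧ j.unpair.2.unpair.1.testBit (d.1.2.2.1 + b) ≠
        j.unpair.2.unpair.1.testBit (d.1.2.2.1 + b') ∧
      (∀ i < ν.1, ρ.testBit i = (stem ν j.unpair.1).testBit i) ∧
      (∀ i < k, ρ.testBit i = true → ν.1 ≤ i →
        cp d.1.1 b c i = j.unpair.1 ∧ cp d.1.1 b' c i = j.unpair.1) ∧
      t ≤ y ∧ out (opr d j) k ρ y = true := by
  simp only [viol, exb_iff, List.length_map, List.length_range, Bool.and_eq_true,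
    Bool.not_eq_true', decide_eq_false_iff_not, decide_eq_true_eq, agree_iff, allb_iff, and_assoc,
    Nat.lt_succ_iff, Bool.or_eq_true, stat, stem, opr, cp, ne_eq]
  refine exists_congr fun b' => and_congr Iff.rfl (exists_congr fun j => and_congr Iff.rfl
    (exists_congr fun ρ => and_congr Iff.rfl (exists_congr fun y => and_congr Iff.rfl
      (and_congr Iff.rfl (and_congr (by simp) (and_congr Iff.rfl (and_congr
        (forall₂_congr fun i hi => ?_) Iff.rfl)))))))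
  rw [getD_map_range _ hi]
  cases ρ.testBit i <;> simp [or_iff_not_imp_left]

theorem nV_iff {V : List ℕ → Bool} {d : Dat} {ν : Nd} {t k : ℕ} {c : ℕ → ℕ} :
    nV V d ν t ((List.range k).map c) = false ↔ ∀ b ≤ d.1.1,
      V ((List.range k).map (cp d.1.1 b c)) = false ∧
      (∀ i < k, i < ν.1 → cp d.1.1 b c i = dg d.1.1 ν.2.1 i) ∧
      ¬ viol d ν t ((List.range k).map c) b = true := by
  rw [← Bool.not_eq_true]
  simp only [nV, exb_iff, List.length_map, List.length_range, Bool.and_eq_true,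
    Bool.not_eq_true', decide_eq_false_iff_not, decide_eq_true_eq, Nat.lt_succ_iff,
    Bool.or_eq_true, not_exists, not_and, not_or, List.map_map, and_assoc, not_not]
  refine forall₂_congr fun b _ => and_congr (Bool.not_eq_true _).to_iff
    (and_congr (forall₂_congr fun i hi => ?_) Iff.rfl)
  rw [getD_map_range _ hi]
  rfl

theorem ulimN {K : ℕ} (f : ℕ → ℕ → ℕ) (hf : ∀ s i, f s i < K) : ∃ P : ℕ → ℕ,
    ∀ k, ∀ᶠ s in (hyperfilter ℕ : Filter ℕ), ∀ i < k, f s i = P i := by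
  have h : ∀ i, ∃ b ∈ Set.Iio K, ∀ᶠ s in (hyperfilter ℕ : Filter ℕ), f s i = b := fun i =>
    (Ultrafilter.eventually_exists_mem_iff (Set.finite_Iio K)).1
      (Eventually.of_forall fun s => ⟨_, hf s i, rfl⟩)
  choose P _ hP using h
  exact ⟨P, fun k => (eventually_all_finite (Set.finite_lt_nat k)).2 fun i _ => hP i⟩

theorem exists_index {V : List ℕ → Bool} (hV : Computable V) : ∃ v, ∀ l, V l = true ↔
    ∃ t, (Code.evaln t (Denumerable.ofNat Code v) (encode l)).isSome = true := by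
  have hW : REPred fun l => V l = true :=
    (ComputablePred.computable_iff.2 ⟨V, hV, rfl⟩).to_re
  obtain ⟨c, hc⟩ := Code.exists_code.1 hW
  refine ⟨encode c, fun a => ?_⟩
  have h1 : V a = true ↔ ∃ x, x ∈ Code.eval c (encode a) := by
    rw [hc]
    simp [Part.mem_assert_iff]
  rw [h1, Denumerable.ofNat_encode]
  simp only [Code.evaln_complete, Option.isSome_iff_exists, Option.mem_def]
  exact exists_comm

theorem exists_silent {V : List ℕ → Bool} {d : Dat} {ν : Nd} {t s₀ : ℕ} (hK : 0 < d.1.1)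
    (hv : ∀ l, V l = true ↔
      ∃ t, (Code.evaln t (Denumerable.ofNat Code d.1.2.1) (encode l)).isSome = true)
    (h : ∀ s, s₀ ≤ s → ∀ b ≤ d.1.1, ev d ν (G s) t s (d.1.2.2.1 + b) = false) :
    ∃ c, Val (d.1.1 ^ (d.1.1 + 1)) (nV V d ν t) c := by
  have h1 : ∀ b s, ∃ τ, b ≤ d.1.1 → max s₀ ν.1 ≤ s → alive d ν s τ = true ∧
      ∀ j ρ y, ¬ good d ν (G s) t s (d.1.2.2.1 + b) τ j ρ y = true := by
    intro b s
    by_contra hc
    push Not at hc
    obtain ⟨k1, k2, -⟩ := hc 0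
    exact Bool.noConfusion ((ev_iff.2 ⟨(le_max_right _ _).trans k2, fun τ _ k =>
      (hc τ).2.2 k⟩).symm.trans (h s ((le_max_left _ _).trans k2) b k1))
  choose τ h1 using h1
  have h2 : ∀ a i, dg d.1.1 a i < d.1.1 := fun a i => Nat.mod_lt _ hK
  choose C p1 using fun b => ulimN (fun s i => dg d.1.1 (τ b s) i) fun s i => h2 _ _
  have h3 : ∀ b i, C b i < d.1.1 := fun b i => by
    obtain ⟨s, hs⟩ := (p1 b (i + 1)).exists
    exact hs i (Nat.lt_succ_self i) ▸ h2 _ _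
  choose c c1 c2 using fun i => exists_dg (fun b => C b i) (fun b => h3 b i) (d.1.1 + 1)
  have c3 : ∀ b ≤ d.1.1, cp d.1.1 b c = C b := fun b hb =>
    funext fun i => c2 i b (Nat.lt_succ_of_le hb)
  refine ⟨c, c1, fun k => nV_iff.2 fun b hb => ⟨?_, fun i hi hi' => ?_, fun hc => ?_⟩⟩
  · rw [c3 b hb, ← Bool.not_eq_true, hv]
    rintro ⟨u, hu⟩
    obtain ⟨s, q1, q2, q3, q4⟩ :=
      ((p1 b k).and ((ev_ge (max s₀ ν.1)).and ((ev_ge k).and (ev_ge u)))).exists
    have q5 := (Bool.and_eq_true_iff.1 (h1 b s hb q2).1).2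
    rw [Bool.not_eq_true', ← Bool.not_eq_true, forb, exb_iff] at q5
    exact q5 ⟨k, Nat.lt_succ_of_le q3, (lst_eq q1).symm ▸ isSome_mono q4 hu⟩
  · obtain ⟨s, q1, q2⟩ := ((p1 b k).and (ev_ge (max s₀ ν.1))).exists
    rw [c3 b hb, ← q1 i hi]
    exact same_iff.1 (Bool.and_eq_true_iff.1 (h1 b s hb q2).1).1 i hi'
  · obtain ⟨b', hb', j, a1, ρ, a2, y, a3, a4, a5, a6, a7, a8, a9⟩ := viol_iff.1 hc
    rw [c3 b hb, c3 b' hb'] at a7
    obtain ⟨s, q1, q1', q2, q3⟩ :=
      ((p1 b k).and ((p1 b' k).and ((ev_ge (max s₀ ν.1)).and (ev_ge k)))).exists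
    have q4 : ∀ i, ρ.testBit i = true → i < k := fun i hi => by
      by_contra c'
      rw [Nat.testBit_lt_two_pow (a2.trans_le (Nat.pow_le_pow_right two_pos (not_lt.1 c')))] at hi
      exact Bool.noConfusion hi
    have key : ∀ z ≤ d.1.1, (∀ i < k, ρ.testBit i = true → ν.1 ≤ i →
        dg d.1.1 (τ z s) i = j.unpair.1) →
        ¬ prog (G s) (stat ν j) j.unpair.2.unpair.1 (d.1.2.2.1 + z) y = true := fun z hz k1 k2 =>
      (h1 z s hz q2).2 j ρ y (good_iff.2 ⟨a1, a2.trans_le (Nat.pow_le_pow_right two_pos q3),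
        a3.trans_le q3, a6, fun i _ k3 k4 => k1 i (q4 i k3) k3 k4, a8,
        out_mono a9 q3 fun _ _ => rfl, k2⟩)
    have z1 := key b hb fun i hi k1 k2 => (q1 i hi).trans (a7 i hi k1 k2).1
    have z2 := key b' hb' fun i hi k1 k2 => (q1' i hi).trans (a7 i hi k1 k2).2
    simp only [prog, Bool.or_eq_true, Bool.and_eq_true, decide_eq_true_eq, not_or, not_and]
      at z1 z2
    have z3 : 2 ≤ stat ν j := by omega
    have z4 := z1.2 z3
    have z5 := z2.2 z3
    revert z4 z5 a5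
    cases colr j.unpair.2.unpair.1 (G s) (stat ν j - 2) <;>
      cases colr j.unpair.2.unpair.1 (G s) y <;>
      cases j.unpair.2.unpair.1.testBit (d.1.2.2.1 + b) <;> simp

theorem not_sol_of_val {V : List ℕ → Bool} {d : Dat} {ν : Nd} {r t b b' j : ℕ} {c : ℕ → ℕ}
    {H : ℕ → Bool} {W : List Bool × ℕ → Prop} (hν : NOK d r t ν)
    (hc : Val (d.1.1 ^ (d.1.1 + 1)) (nV V d ν t) c) (hb : b ≤ d.1.1) (hb' : b' ≤ d.1.1)
    (hj : j < ν.2.2.2.length) (hp : j.unpair.1 < d.1.1) (hw : Idx W (opr d j))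
    (h1 : Cell ν.1 (stem ν j.unpair.1).testBit j.unpair.1 (cp d.1.1 b c) H)
    (h2 : Cell ν.1 (stem ν j.unpair.1).testBit j.unpair.1 (cp d.1.1 b' c) H)
    (h3 : j.unpair.2.unpair.1.testBit (d.1.2.2.1 + b) ≠
      j.unpair.2.unpair.1.testBit (d.1.2.2.1 + b')) :
    ¬ Sol (Y j.unpair.2.unpair.1) (Out W H) := by
  by_cases k : stat ν j = 1
  · obtain ⟨x, y, k1, k2, k3⟩ := hν.dead j hj hp k
    exact k3.not_sol (hw.mem k1 fun i hi => (h1.1 i hi).symm)
      (hw.mem k2 fun i hi => (h1.1 i hi).symm)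
  refine fun q => q.1 ((Set.finite_lt_nat t).subset fun y hy => ?_)
  by_contra hc'
  obtain ⟨N, u1⟩ := hw.out hy
  obtain ⟨ρ, q1, q2, q3⟩ := exists_trunc H (le_refl (N + ν.1 + y + 1))
  exact (nV_iff.1 (hc.2 (N + ν.1 + y + 1)) b hb).2.2 (viol_iff.2 ⟨b', hb', j, hj, ρ, q1, y,
    by omega, k, h3, fun i hi => (q2 i (by omega)).trans (h1.1 i hi), fun i hi k1 k2 =>
      ⟨h1.2 i k2 (q3 i hi k1).2, h2.2 i k2 (q3 i hi k1).2⟩, not_lt.1 hc',
    out_mono (u1 ρ fun i hi => q2 i (by omega)) (by omega) fun _ _ => rfl⟩)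

theorem round {K o n J : ℕ} {V : List ℕ → Bool} (hV : Computable V) {c₀ : ℕ → ℕ}
    (h₀ : Val K V c₀) (F : ℕ → ℕ → Bool) {W : ℕ → List Bool × ℕ → Prop}
    (hW : ∀ j, REPred (W j)) : ∃ (n' : ℕ) (V' : List ℕ → Bool) (F' : ℕ → ℕ → Bool),
      Computable V' ∧ (∃ c, Val (K ^ (K + 1)) V' c) ∧ ∀ c, Val (K ^ (K + 1)) V' c → ∀ b ≤ K,
        Val K V (cp K b c) ∧ (∀ i < n, cp K b c i = c₀ i) ∧ ∀ p < K, ∀ H,
          Cell n' (F' p) p (cp K b c) H → Cell n (F p) p (cp K b c) H ∧ ∀ b' ≤ K,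
            Cell n' (F' p) p (cp K b' c) H → ∀ j < J, j.unpair.1 = p →
              j.unpair.2.unpair.1.testBit (o + b) ≠ j.unpair.2.unpair.1.testBit (o + b') →
                ¬ Sol (Y j.unpair.2.unpair.1) (Out (W j) H) := by
  obtain ⟨v, hv⟩ := exists_index hV
  choose w hw using fun j => exists_idx (hW j)
  obtain ⟨σ, -, hσ⟩ := exists_dg c₀ h₀.1 n
  choose f f1 _ f2 using fun p => exists_sg (F p) n
  have hK : 0 < K := (Nat.zero_le _).trans_lt (h₀.1 0)
  obtain ⟨e, he⟩ : ∃ e, dat e = ((K, v, o, (List.range J).map w),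
      (n, σ, (List.range K).map f, (List.range J).map fun _ => 0)) :=
    ⟨encode (α := Dat) _, by rw [dat, encodek]; rfl⟩
  have e1 : ∀ p < K, stem (dat e).2 p = f p := fun p hp => he ▸ getD_map_range _ hp _
  have e2 : (dat e).2.2.2.2.length = J := by simp [he]
  have e3 : ∀ j < J, stat (dat e).2 j = 0 := fun j hj => he ▸ getD_map_range _ hj _
  have e4 : ∀ j < J, opr (dat e) j = w j := fun j hj => he ▸ getD_map_range _ hj _
  obtain rfl : (dat e).1.1 = K := by rw [he]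
  obtain rfl : (dat e).1.2.1 = v := by rw [he]
  obtain rfl : (dat e).1.2.2.1 = o := by rw [he]
  obtain rfl : (dat e).2.1 = n := by rw [he]
  obtain rfl : (dat e).2.2.1 = σ := by rw [he]
  clear he
  obtain ⟨s₀, h⟩ := exists_limit e
  obtain ⟨h4, h5⟩ := inv4 (e := e) (fun r t => ⟨le_rfl, fun _ _ => rfl, rfl, fun _ _ _ _ => rfl,
    fun p hp i hi k => by
      rw [e1 p hp, Nat.testBit_lt_two_pow ((f1 p).trans_le (Nat.pow_le_pow_right two_pos hi))] at k
      exact Bool.noConfusion k,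
    fun j hj _ k => by rw [e3 j (e2 ▸ hj)] at k; omega,
    fun j hj _ k => by rw [e3 j (e2 ▸ hj)] at k; omega⟩) s₀
  obtain ⟨ν₀, h6, -⟩ := h5 c₀ ⟨h₀.1, fun k t => Bool.eq_false_iff.2 fun q =>
    Bool.noConfusion (((hv _).2 ⟨t, q⟩).symm.trans (h₀.2 k))⟩ fun i hi => (hσ i hi).symm
  generalize R s₀ e = Q at h h4 h6
  generalize dat e = d at *
  have h7 : NOK d Q.1 Q.2.1 (hd Q) := by
    obtain ⟨r, t, l⟩ := Q
    cases l with
    | nil => simp at h6
    | cons a l => exact h4 _ List.mem_cons_self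
  refine ⟨(hd Q).1, nV V d (hd Q) Q.2.1, fun p => (stem (hd Q) p).testBit, c_nV hV _ _ _,
    exists_silent (s₀ := s₀) hK hv fun s hs b hb => ?_, fun c hc b hb => ?_⟩
  · have k := h s hs
    rw [act, decide_eq_true (List.length_pos_of_mem h6), Bool.true_and, decide_eq_false_iff_not,
      not_lt] at k
    exact mub_min (p := fun b => ev d (hd Q) (G s) Q.2.1 s (d.1.2.2.1 + b))
      ((Nat.lt_succ_of_le hb).trans_le k)
  have k1 : ∀ i < (hd Q).1, cp d.1.1 b c i = dg d.1.1 (hd Q).2.1 i := fun i hi =>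
    (nV_iff.1 (hc.2 (i + 1)) b hb).2.1 i (Nat.lt_succ_self i) hi
  refine ⟨⟨fun i => Nat.mod_lt _ hK, fun k => (nV_iff.1 (hc.2 k) b hb).1⟩,
    fun i hi => (k1 i (hi.trans_le h7.lev)).trans ((h7.col i hi).trans (hσ i hi)),
    fun p hp H hH => ⟨⟨fun i hi => ?_, fun i hi k => ?_⟩, fun b' hb' hH' j hj k2 k3 => ?_⟩⟩
  · rw [hH.1 i (hi.trans_le h7.lev), ← f2 p i hi, ← e1 p hp]
    exact h7.low p hp i hi
  · by_cases q : i < (hd Q).1
    · exact (k1 i q).trans (h7.mid p hp i hi ((hH.1 i q).symm.trans k)).2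
    · exact hH.2 i (not_lt.1 q) k
  · subst k2
    exact not_sol_of_val h7 hc hb hb' (by rw [h7.len, e2]; exact hj) hp (e4 j hj ▸ hw j) hH hH' k3

end Pool.Agent.Lib.MP_aa609a_lc.Team
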