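import Pool.Agent.Lib.MP_aa609a_lc.TVerify

/-! The open nodes of a requirement are correct and cover the class. -/

namespace Pool.Agent.Lib.MP_aa609a_lc.Team

open Pool.Agent.Shared.Oracle Filter Encodable Nat.Partrec

/-- the stems of a node -/
def stem (ν : Nd) (p : ℕ) : ℕ := ν.2.2.1.getD p 0

/-- the statuses of a node -/
def stat (ν : Nd) (j : ℕ) : ℕ := ν.2.2.2.getD j 1

/-- the operators -/
def opr (d : Dat) (j : ℕ) : ℕ := d.1.2.2.2.getD j 0

/-- the node is correct -/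
structure NOK (d : Dat) (r t : ℕ) (ν : Nd) : Prop where
  lev : d.2.1 ≤ ν.1
  col : ∀ i < d.2.1, dg d.1.1 ν.2.1 i = dg d.1.1 d.2.2.1 i
  len : ν.2.2.2.length = d.2.2.2.2.length
  low : ∀ p < d.1.1, ∀ i < d.2.1, (stem ν p).testBit i = (stem d.2 p).testBit i
  mid : ∀ p < d.1.1, ∀ i, d.2.1 ≤ i → (stem ν p).testBit i = true → i < ν.1 ∧ dg d.1.1 ν.2.1 i = p
  dead : ∀ j < ν.2.2.2.length, j.unpair.1 < d.1.1 → stat ν j = 1 → ∃ x y,
    out (opr d j) ν.1 (stem ν j.unpair.1) x = true ∧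
      out (opr d j) ν.1 (stem ν j.unpair.1) y = true ∧ Opp j.unpair.2.unpair.1 x y
  anch : ∀ j < ν.2.2.2.length, j.unpair.1 < d.1.1 → 2 ≤ stat ν j → r ≤ stat ν j - 2 ∧
    stat ν j - 2 < t ∧ out (opr d j) ν.1 (stem ν j.unpair.1) (stat ν j - 2) = true

theorem NOK.mono {d : Dat} {r t t' : ℕ} {ν : Nd} (h : NOK d r t ν) (ht : t ≤ t') :
    NOK d r t' ν :=
  ⟨h.lev, h.col, h.len, h.low, h.mid, h.dead, fun j h1 h2 h3 =>
    ⟨(h.anch j h1 h2 h3).1, (h.anch j h1 h2 h3).2.1.trans_le ht, (h.anch j h1 h2 h3).2.2⟩⟩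

theorem stem_child {d : Dat} {ν : Nd} {s τ j ρ y p : ℕ} (hp : p < d.1.1) :
    stem (child' d ν s τ j ρ y) p = if p = j.unpair.1 then ρ else stem ν p := by
  simp only [stem, child']
  rw [getD_map_range _ hp]
  split_ifs with h <;> simp [h]

theorem stat_child {d : Dat} {ν : Nd} {s τ j ρ y i : ℕ} (hi : i < ν.2.2.2.length) :
    stat (child' d ν s τ j ρ y) i =
      if i = j then (if stat ν i = 0 then y + 2 else 1) else stat ν i := by
  simp only [stat, child']
  rw [getD_map_range _ hi]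
  simp only [Bool.cond_decide]
  rfl

theorem NOK.child {d : Dat} {r t s q τ j ρ y : ℕ} {ν : Nd} {g : List (ℕ × ℕ)}
    (h : NOK d r t ν) (h1 : r ≤ t) (h2 : t ≤ s) (h3 : ν.1 ≤ s)
    (h4 : ∀ i < ν.1, dg d.1.1 τ i = dg d.1.1 ν.2.1 i) (h5 : good d ν g t s q τ j ρ y = true)
    (h6 : ∀ k x y, r ≤ x → x < t → t ≤ y → y < s →
      xor (colr k g x) (xor (colr k g y) (k.testBit q)) = true → Opp k x y) :
    NOK d r s (child' d ν s τ j ρ y) := by
  obtain ⟨g1, g2, g3, g4, g5, g6, g7, g8⟩ := good_iff.1 h5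
  have k1 : ∀ p < d.1.1, ∀ i < ν.1,
      (stem ν p).testBit i = (stem (child' d ν s τ j ρ y) p).testBit i := by
    intro p hp i hi
    rw [stem_child hp]
    split_ifs with k
    · exact k ▸ (g4 i hi).symm
    · rfl
  have k2 : (child' d ν s τ j ρ y).2.2.2.length = ν.2.2.2.length := by simp [child']
  have k3 : ∀ p < d.1.1, ∀ w x, out w ν.1 (stem ν p) x = true →
      out w s (stem (child' d ν s τ j ρ y) p) x = true :=
    fun p hp w x k => out_mono k h3 (k1 p hp)
  refine ⟨h.lev.trans h3, fun i hi => (h4 i (hi.trans_le h.lev)).trans (h.col i hi),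
    k2.trans h.len, fun p hp i hi => (k1 p hp i (hi.trans_le h.lev)).symm.trans (h.low p hp i hi),
    fun p hp i hi k => ?_, fun i hi hp k => ?_, fun i hi hp k => ?_⟩
  · change i < s ∧ dg d.1.1 τ i = p
    by_cases c : i < ν.1
    · exact ⟨c.trans_le h3, (h4 i c).trans (h.mid p hp i hi ((k1 p hp i c).trans k)).2⟩
    rw [stem_child hp] at k
    split_ifs at k with e
    · have c' : i < s := by
        by_contra c'
        rw [Nat.testBit_lt_two_pow (g2.trans_le (Nat.pow_le_pow_right two_pos (not_lt.1 c')))] at k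
        exact Bool.noConfusion k
      exact ⟨c', e ▸ g5 i c' k (not_lt.1 c)⟩
    · exact absurd (h.mid p hp i hi k).1 c
  · rw [k2] at hi
    rw [stat_child hi] at k
    split_ifs at k with e e'
    · omega
    · subst e
      simp only [prog, Bool.or_eq_true, Bool.and_eq_true, decide_eq_true_eq] at g8
      obtain ⟨c1, c2⟩ := g8.resolve_left e'
      obtain ⟨c3, c4, c5⟩ := h.anch i hi hp c1
      refine ⟨_, y, k3 _ hp _ _ c5, ?_, h6 _ _ _ c3 c4 g6 g3 c2⟩
      rw [stem_child hp, if_pos rfl]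
      exact g7
    · obtain ⟨x, z, c1, c2, c3⟩ := h.dead i hi hp k
      exact ⟨x, z, k3 _ hp _ _ c1, k3 _ hp _ _ c2, c3⟩
  · rw [k2] at hi
    rw [stat_child hi] at k ⊢
    split_ifs at k ⊢ with e e'
    · subst e
      rw [stem_child hp, if_pos rfl]
      exact ⟨h1.trans g6, g3, g7⟩
    · omega
    · obtain ⟨c1, c2, c3⟩ := h.anch i hi hp k
      exact ⟨c1, c2.trans_le h2, k3 _ hp _ _ c3⟩

/-- the colouring extends the node -/
def Ext (K : ℕ) (ν : Nd) (c : ℕ → ℕ) : Prop := ∀ i < ν.1, c i = dg K ν.2.1 i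

/-- the colouring is never forbidden -/
def Free (K v : ℕ) (c : ℕ → ℕ) : Prop := (∀ i, c i < K) ∧ ∀ k t,
  (Code.evaln t (Denumerable.ofNat Code v) (encode ((List.range k).map c))).isSome = false

theorem lst_eq {K τ k : ℕ} {c : ℕ → ℕ} (h : ∀ i < k, dg K τ i = c i) :
    lst K τ k = (List.range k).map c :=
  List.map_congr_left fun i hi => h i (List.mem_range.1 hi)

theorem inv4 {e : ℕ} (h0 : ∀ r t, NOK (dat e) r t (dat e).2) (s : ℕ) :
    (∀ ν ∈ (R s e).2.2, NOK (dat e) (R s e).1 (R s e).2.1 ν) ∧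
      ∀ c, Free (dat e).1.1 (dat e).1.2.1 c → Ext (dat e).1.1 (dat e).2 c →
        ∃ ν ∈ (R s e).2.2, Ext (dat e).1.1 ν c := by
  have base : ∀ s, (∀ ν ∈ [(dat e).2], NOK (dat e) s s ν) ∧
      ∀ c, Free (dat e).1.1 (dat e).1.2.1 c → Ext (dat e).1.1 (dat e).2 c →
        ∃ ν ∈ [(dat e).2], Ext (dat e).1.1 ν c := fun s =>
    ⟨fun ν h => List.mem_singleton.1 h ▸ h0 s s, fun c _ h => ⟨_, List.mem_singleton_self _, h⟩⟩
  induction s with
  | zero =>
    rw [R_ge (Nat.zero_le _)]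
    exact base 0
  | succ s ih =>
    rcases lt_trichotomy e (m s) with h | h | h
    · rw [R_lt h]
      exact ih
    swap
    · rw [R_gt h]
      exact base _
    have h3 := inv1 s e
    have h4 := lr_succ s
    have h5 := G_succ s
    have h6 := R_eq s
    have h1 := act_m (s := s)
    rw [← h] at h4 h5 h6 h1
    rw [h6]
    by_cases c : e < len s
    swap
    · rw [decide_eq_false c]
      exact ⟨fun ν k => (ih.1 ν k).mono h3.2.1, ih.2⟩
    obtain ⟨k1, k2⟩ := act_iff (h1 c)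
    rw [decide_eq_true c] at h5 ⊢
    generalize R s e = Q at *
    generalize dat e = d at *
    have k3 := ev_iff.1 k2
    have k4 : hd Q ∈ Q.2.2 := k1 ▸ List.mem_cons_self
    refine ⟨fun ν k => ?_, fun c c1 c2 => ?_⟩
    · rcases List.mem_append.1 k with k | k
      · obtain ⟨τ, t1, t2, rfl⟩ := mem_kids.1 k
        refine (ih.1 _ k4).child h3.1 h3.2.1 k3.1 (same_iff.1 (Bool.and_eq_true_iff.1 t2).1)
          (wit_spec k2 t1 t2) fun k x y a1 a2 a3 a4 a5 => ⟨s, h4.le.trans a1,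
            a2.trans_le h3.2.1, h4.le.trans (h3.1.trans a3), a4, ?_⟩
        rw [h5, colr_ng, colr_ng, decide_eq_false (not_le.2 a2), decide_eq_true a3]
        simpa using a5
      · exact (ih.1 ν (List.mem_of_mem_tail k)).mono h3.2.1
    · obtain ⟨ν, n1, n2⟩ := ih.2 c c1 c2
      rw [k1] at n1
      rcases List.mem_cons.1 n1 with rfl | n1
      · obtain ⟨τ, t1, t2⟩ := exists_dg c c1.1 s
        refine ⟨_, List.mem_append_left _ (mem_kids.2 ⟨τ, t1, ?_, rfl⟩),
          fun i hi => (t2 i hi).symm⟩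
        simp only [alive, Bool.and_eq_true, same_iff, Bool.not_eq_true', ← Bool.not_eq_true, forb,
          exb_iff]
        refine ⟨fun i hi => (t2 i (hi.trans_le k3.1)).trans (n2 i hi), ?_⟩
        rintro ⟨k, a1, a2⟩
        rw [lst_eq fun i hi => t2 i (by omega), c1.2] at a2
        exact Bool.noConfusion a2
      · exact ⟨ν, List.mem_append_right _ n1, n2⟩

end Pool.Agent.Lib.MP_aa609a_lc.Team
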