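import Pool.Agent.Lib.MP_aa609a_lc.TCore
import Pool.Agent.Lib.MP_aa609a_lc.Main

/-! The rounds, each of them a Baire category argument. -/

namespace Pool.Agent.Lib.MP_aa609a_lc.Team

open Pool.Agent.Shared.Oracle Pool.Agent.Shared.Oracle.FP Filter Topology

/-- colourings with a set for each colour -/
abbrev ZZ : Type := (ℕ → ℕ) × (ℕ → ℕ → Bool)

theorem ev_loc (z : ZZ) (k : ℕ) :
    ∀ᶠ z' in 𝓝 z, (∀ i < k, z'.1 i = z.1 i) ∧ ∀ p < k, ∀ i < k, z'.2 p i = z.2 p i := by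
  refine ((eventually_all_finite (Set.finite_lt_nat k)).2 fun i _ => ?_).and
    ((eventually_all_finite (Set.finite_lt_nat k)).2 fun p _ =>
      (eventually_all_finite (Set.finite_lt_nat k)).2 fun i _ => ?_)
  · exact (by fun_prop : Continuous fun z : ZZ => z.1 i).continuousAt.eventually
      (p := fun a => a = z.1 i) (by simp [nhds_discrete])
  · exact (by fun_prop : Continuous fun z : ZZ => z.2 p i).continuousAt.eventually
      (p := fun a => a = z.2 p i) (by simp [nhds_discrete])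

/-- valid colourings with a set in each cell -/
def ZS (K n : ℕ) (V : List ℕ → Bool) (F : ℕ → ℕ → Bool) : Set ZZ :=
  {z | Val K V z.1 ∧ ∀ p < K, Cell n (F p) p z.1 (z.2 p)}

theorem isClosed_ZS (K n : ℕ) (V : List ℕ → Bool) (F : ℕ → ℕ → Bool) :
    IsClosed (ZS K n V F) := by
  refine isClosed_iff_frequently.2 fun z hz => ?_
  have h := fun k => (hz.and_eventually (ev_loc z k)).exists
  refine ⟨⟨fun i => ?_, fun k => ?_⟩, fun p hp => ⟨fun i hi => ?_, fun i hi q => ?_⟩⟩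
  · obtain ⟨y, h1, h2, -⟩ := h (i + 1)
    exact h2 i (Nat.lt_succ_self i) ▸ h1.1.1 i
  · obtain ⟨y, h1, h2, -⟩ := h k
    rw [← h1.1.2 k, List.map_congr_left fun i hi => h2 i (List.mem_range.1 hi)]
  · obtain ⟨y, h1, -, h2⟩ := h (p + i + 1)
    exact (h2 p (by omega) i (by omega)).symm.trans ((h1.2 p hp).1 i hi)
  · obtain ⟨y, h1, h3, h2⟩ := h (p + i + 1)
    exact (h3 i (by omega)).symm.trans
      ((h1.2 p hp).2 i hi ((h2 p (by omega) i (by omega)).trans q))

theorem exists_lev {T : Set ZZ} {S : Set T} {z : T} (h : z ∈ interior S) : ∃ k, ∀ z' : T,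
    (∀ i < k, z'.1.1 i = z.1.1 i) → (∀ c, ∀ i < k, z'.1.2 c i = z.1.2 c i) → z' ∈ S := by
  by_contra hc
  push Not at hc
  choose y h1 h2 h3 using hc
  have h4 : Tendsto y atTop (𝓝 z) := by
    refine tendsto_subtype_rng.2 ((Prod.tendsto_iff _ _).2 ⟨tendsto_pi_nhds.2 fun i => ?_,
      tendsto_pi_nhds.2 fun c => tendsto_pi_nhds.2 fun i => ?_⟩)
    · exact tendsto_const_nhds.congr' ((eventually_gt_atTop i).mono fun k hk => (h1 k i hk).symm)
    · exact tendsto_const_nhds.congr'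
        ((eventually_gt_atTop i).mono fun k hk => (h2 k c i hk).symm)
  obtain ⟨k, hk⟩ := (h4.eventually (mem_interior_iff_mem_nhds.1 h)).exists
  exact h3 k hk

theorem baire {K n J : ℕ} {V : List ℕ → Bool} {F : ℕ → ℕ → Bool} (h0 : ∃ c, Val K V c)
    {A : ℕ → ℕ → ℕ → Set (ℕ → Bool)} (hA : ∀ p m ν, IsClosed (A p m ν))
    {B : ℕ → ℕ → ℕ → Prop} (hB : ∀ z ∈ ZS K n V F, ∀ p < K, ∀ m < J,
      ∃ ν, B p m ν ∧ ({i | z.2 p i = true}.Infinite → z.2 p ∈ A p m ν)) :
    ∃ z ∈ ZS K n V F, ∃ (k : ℕ) (ν : ℕ → ℕ → ℕ), n ≤ k ∧ (∀ p < K, ∀ m < J, B p m (ν p m)) ∧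
      ∀ c, Val K V c → (∀ i < k, c i = z.1 i) → ∀ p < K, ∀ H, Cell k (z.2 p) p c H →
        Cell n (F p) p c H ∧ ({i | H i = true}.Infinite → ∀ m < J, H ∈ A p m (ν p m)) := by
  obtain ⟨c₀, h₀⟩ := h0
  have : Nonempty (ZS K n V F) := ⟨⟨(c₀, fun p i => decide (i < n) && F p i), h₀, fun p _ =>
    ⟨fun i hi => by simp [hi], fun i hi q => absurd (by simpa using q : i < n ∧ _).1
      (not_lt.2 hi)⟩⟩⟩
  have := (isClosed_ZS K n V F).isCompletelyMetrizableSpace
  obtain ⟨⟨⟨l, hl⟩, N⟩, z, hz⟩ := nonempty_interior_of_iUnion_of_closed (X := ZS K n V F)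
    (f := fun ι : {l : List ℕ // ∀ p < K, ∀ m < J, B p m (l.getD (Nat.pair p m) 0)} × ℕ =>
      {z | ∀ p < K, (∀ m < J, z.1.2 p ∈ A p m (ι.1.1.getD (Nat.pair p m) 0)) ∨
        ∀ i, ι.2 ≤ i → z.1.2 p i = false}) (by
    intro ι
    simp only [Set.ofPred_forall, Set.ofPred_or]
    exact isClosed_iInter fun p => isClosed_iInter fun _ => IsClosed.union
      (isClosed_iInter fun m => isClosed_iInter fun _ => (hA _ _ _).preimage (by fun_prop))
      (isClosed_iInter fun i => isClosed_iInter fun _ =>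
        isClosed_eq (by fun_prop) continuous_const)) (by
    refine Set.eq_univ_of_forall fun z => Set.mem_iUnion.2 ?_
    choose! ν h1 h2 using hB z.1 z.2
    have h3 : ∀ p, ∃ N, {i | z.1.2 p i = true}.Infinite ∨ ∀ i, N ≤ i → z.1.2 p i = false := by
      intro p
      by_cases h : {i | z.1.2 p i = true}.Infinite
      · exact ⟨0, Or.inl h⟩
      · obtain ⟨N, hN⟩ := (Set.not_infinite.1 h).bddAbove
        exact ⟨N + 1, Or.inr fun i hi => Bool.eq_false_iff.2 fun k => absurd (hN k) (not_le.2 hi)⟩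
    choose N h3 using h3
    have h4 : ∀ p < K, ∀ m < J, ((List.range (Nat.pair K J)).map fun j =>
        ν j.unpair.1 j.unpair.2).getD (Nat.pair p m) 0 = ν p m := fun p hp m hm => by
      rw [getD_map_range _ ((Nat.pair_lt_pair_left _ hp).trans (Nat.pair_lt_pair_right _ hm)),
        Nat.unpair_pair]
    refine ⟨(⟨_, fun p hp m hm => (h4 p hp m hm).symm ▸ h1 p hp m hm⟩, (Finset.range K).sup N),
      fun p hp => (h3 p).imp (fun q m hm => (h4 p hp m hm).symm ▸ h2 p hp m hm q)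
        fun q i hi => q i ((Finset.le_sup (Finset.mem_range.2 hp)).trans hi)⟩)
  obtain ⟨k, hk⟩ := exists_lev hz
  refine ⟨z.1, z.2, max k n, fun p m => l.getD (Nat.pair p m) 0, le_max_right _ _, hl,
    fun c hc h1 => ?_⟩
  have key : ∀ p < K, ∀ H, Cell (max k n) (z.1.2 p) p c H → Cell n (F p) p c H := by
    intro p hp H hH
    refine ⟨fun i hi => (hH.1 i (hi.trans_le (le_max_right _ _))).trans ((z.2.2 p hp).1 i hi),
      fun i hi q => ?_⟩
    by_cases e : i < max k n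
    · exact (h1 i e).trans ((z.2.2 p hp).2 i hi ((hH.1 i e).symm.trans q))
    · exact hH.2 i (not_lt.1 e) q
  refine fun p hp H hH => ⟨key p hp H hH, fun q => ?_⟩
  have h2 := hk ⟨(c, fun d => if d = p then H else fun i => decide (i < max k n) && z.1.2 d i),
    hc, fun d hd => key d hd _ (by
      dsimp only
      split_ifs with e
      · exact e ▸ hH
      · exact ⟨fun i hi => by simp only [hi, decide_true, Bool.true_and], fun i hi q => absurd
          (of_decide_eq_true (Bool.and_eq_true_iff.1 q).1) (not_lt.2 hi)⟩)⟩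
    (fun i hi => h1 i (hi.trans_le (le_max_left _ _))) (by
      intro d i hi
      have hi' := hi.trans_le (le_max_left k n)
      dsimp only
      split_ifs with e
      · exact e ▸ hH.1 i hi'
      · simp only [hi', decide_true, Bool.true_and]) p hp
  simp only [if_true] at h2
  refine h2.resolve_right fun h3 => ?_
  obtain ⟨i, h4, h5⟩ := q.exists_gt N
  exact Bool.noConfusion ((h3 i h5.le).symm.trans h4)

/-- the invariant after `r` rounds -/
def Inv (X : List Bool → Prop) (J : ℕ) (B : ℕ → ℕ → (ℕ → Bool) → Prop) (K o r : ℕ) : Prop :=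
  ∃ (n : ℕ) (V : List ℕ → Bool) (F u : ℕ → ℕ → Bool) (D : ℕ → ℕ → Finset ℕ), Computable V ∧
    (∃ c, Val K V c) ∧ (∀ p < K, ∀ m < J, (D p m).card = r) ∧
      ∀ c, Val K V c → ∀ p < K, ∀ H, Cell n (F p) p c H → {i | H i = true}.Infinite →
        Sol X {i | H i = true} ∧ ∀ m < J, (∀ i < o, m.testBit i = u p i) → ∀ ν ∈ D p m, B m ν H

theorem Inv.step {X : List Bool → Prop} {J K o r : ℕ} {A : ℕ → ℕ → Set (ℕ → Bool)}
    {k : ℕ → ℕ → ℕ} {W : ℕ → ℕ → ℕ → List Bool × ℕ → Prop} (hA : ∀ m n, IsClosed (A m n))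
    (hW : ∀ m n i, REPred (W m n i)) (hs : ∀ m < J, ∀ H : ℕ → Bool, Sol X {i | H i = true} →
      ∃ n, H ∈ A m n ∧ ∃ i < k m n, Sol (Y m) (Out (W m n i) H))
    (h : Inv X J (fun m n H => H ∈ A m n ∧ ∀ i < k m n, ¬ Sol (Y m) (Out (W m n i) H)) K o r) :
    Inv X J (fun m n H => H ∈ A m n ∧ ∀ i < k m n, ¬ Sol (Y m) (Out (W m n i) H))
      (K ^ (K + 1)) (o + K + 1) (r + 1) := by
  obtain ⟨n, V, F, u, D, hV, h0, hD, h⟩ := h
  obtain ⟨z, hz, n₁, ν, -, h1, h2⟩ := baire (n := n) (J := J) (F := F) h0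
    (A := fun p m ν => {H | (∀ i < o, m.testBit i = u p i) → H ∈ A m ν})
    (fun p m ν => by
      rw [Set.ofPred_forall]
      exact isClosed_iInter fun _ => hA m ν) (B := fun p m ν => ν ∉ D p m) (by
      intro z hz p hp m hm
      by_cases q : {i | z.2 p i = true}.Infinite ∧ ∀ i < o, m.testBit i = u p i
      · obtain ⟨q1, q2⟩ := h _ hz.1 p hp _ (hz.2 p hp) q.1
        obtain ⟨ν, q3, i, q4, q5⟩ := hs m hm _ q1
        exact ⟨ν, fun q6 => (q2 m hm q.2 ν q6).2 i q4 q5, fun _ _ => q3⟩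
      · obtain ⟨ν, q1⟩ := Infinite.exists_notMem_finset (D p m)
        exact ⟨ν, q1, fun q2 q3 => absurd ⟨q2, q3⟩ q⟩)
  obtain ⟨n', V', F', hV', h3, h4⟩ := round (o := o) (n := n₁) (J := Nat.pair K (Nat.pair J
    ((Finset.range K).sup fun p => (Finset.range J).sup fun m => k m (ν p m)))) hV hz.1 z.2
    (W := fun j => W j.unpair.2.unpair.1 (ν j.unpair.1 j.unpair.2.unpair.1) j.unpair.2.unpair.2)
    fun j => hW _ _ _
  have hK : 0 < K := (Nat.zero_le _).trans_lt (hz.1.1 0)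
  have h5 : ∀ a i, dg K a i < K := fun a i => Nat.mod_lt _ hK
  choose β b1 β' b2 b3 b4 using fun p => Finset.exists_ne_map_eq_of_card_lt_of_maps_to
    (s := Finset.range (K + 1)) (t := Finset.range K) (by simp) (f := dg K p)
    fun i _ => by simpa using h5 p i
  simp only [Finset.mem_range, Nat.lt_succ_iff] at b1 b2
  refine ⟨n', V', fun p => F' (dg K p (β p)),
    fun p i => if i < o then u (dg K p (β p)) i else decide (i = o + β p),
    fun p m => insert (ν (dg K p (β p)) m) (D (dg K p (β p)) m), hV', h3, fun p _ m hm => ?_,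
    fun c hc p _ H hH hI => ?_⟩
  · rw [Finset.card_insert_of_notMem (h1 _ (h5 _ _) m hm), hD _ (h5 _ _) m hm]
  obtain ⟨k1, k2, k3⟩ := h4 c hc _ (b1 p)
  obtain ⟨k4, k5⟩ := k3 _ (h5 p (β p)) H ⟨hH.1, fun i hi q => by rw [cp, hH.2 i hi q]⟩
  have k6 := k5 _ (b2 p) ⟨hH.1, fun i hi q => by rw [cp, hH.2 i hi q, b4]⟩
  obtain ⟨k7, k8⟩ := h2 _ k1 k2 _ (h5 p (β p)) H k4
  obtain ⟨k9, k10⟩ := h _ k1 _ (h5 p (β p)) H k7 hI
  refine ⟨k9, fun m hm q ν' q' => ?_⟩
  have q1 : ∀ i < o, m.testBit i = u (dg K p (β p)) i := fun i hi =>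
    (q i (by omega)).trans (if_pos hi)
  rcases Finset.mem_insert.1 q' with rfl | q'
  swap
  · exact k10 m hm q1 _ q'
  refine ⟨k8 hI m hm q1, fun i hi => ?_⟩
  have q2 := k6 (Nat.pair (dg K p (β p)) (Nat.pair m i)) ((Nat.pair_lt_pair_left _ (h5 _ _)).trans
    (Nat.pair_lt_pair_right _ ((Nat.pair_lt_pair_left _ hm).trans (Nat.pair_lt_pair_right _
      (hi.trans_le ((Finset.le_sup (f := fun m => k m (ν (dg K p (β p)) m))
        (Finset.mem_range.2 hm)).trans (Finset.le_sup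
          (f := fun p => (Finset.range J).sup fun m => k m (ν p m))
          (Finset.mem_range.2 (h5 _ _)))))))))
  simp only [Nat.unpair_pair] at q2
  refine q2 trivial ?_
  have := b1 p
  have := b2 p
  have := b3 p
  rw [q _ (by omega), q _ (by omega)]
  dsimp only
  rw [if_neg (by omega), if_neg (by omega), decide_eq_true rfl, decide_eq_false (by omega)]
  simp

theorem inv_zero {X : List Bool → Prop} (hX : IsInst X) (J : ℕ)
    (B : ℕ → ℕ → (ℕ → Bool) → Prop) : Inv X J B 2 0 0 := by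
  obtain ⟨h1, hT, hI⟩ := hX
  obtain ⟨X, hX, rfl⟩ := ComputablePred.computable_iff.1 h1
  obtain ⟨P, hP⟩ := exists_path hT hI
  refine ⟨0, fun l => !X (l.map fun a => decide (a = 1)), fun _ _ => false, fun _ _ => false,
    fun _ _ => ∅, by fun_prop, ⟨fun i => (P i).toNat, fun i => Bool.toNat_lt _, fun k => ?_⟩,
    fun _ _ _ _ => rfl, fun c hc p _ H hH hI => ⟨sol_of_path (P := fun i => decide (c i = 1))
      (c := decide (p = 1)) (fun k => ?_) (fun i hi => by rw [hH.2 i (Nat.zero_le _) hi]) hI,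
      by simp⟩⟩
  · dsimp only
    rw [List.map_map, Bool.not_eq_false', ← hP k]
    refine congrArg X (List.map_congr_left fun i _ => ?_)
    exact (by decide : ∀ b : Bool, decide (b.toNat = 1) = b) (P i)
  · have := hc.2 k
    dsimp only at this
    rw [List.map_map, Bool.not_eq_false'] at this
    exact this

theorem Inv.exists {X : List Bool → Prop} {B : ℕ → ℕ → (ℕ → Bool) → Prop} {K o r : ℕ}
    (h : Inv X (2 ^ o) B K o r) : ∃ m < 2 ^ o, ∃ H : ℕ → Bool, Sol X {i | H i = true} ∧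
      (r : ℕ∞) ≤ {n | B m n H}.encard := by
  obtain ⟨n, V, F, u, D, -, ⟨c, hc⟩, hD, h⟩ := h
  obtain ⟨p, hp⟩ := Finite.exists_infinite_fiber fun i => (⟨c i, hc.1 i⟩ : Fin K)
  obtain ⟨m, hm, -, h1⟩ := exists_sg (u p) o
  obtain ⟨h2, h3⟩ := h c hc p p.2 (fun i => if i < n then F p i else decide (c i = p))
    ⟨fun i hi => if_pos hi, fun i hi q => of_decide_eq_true ((if_neg (not_lt.2 hi)).symm.trans q)⟩
    (((Set.infinite_coe_iff.1 hp).sdiff (Set.finite_lt_nat n)).mono fun i hi =>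
      (if_neg hi.2).trans (decide_eq_true (congrArg Fin.val hi.1)))
  refine ⟨m, hm, _, h2, ?_⟩
  rw [← hD p p.2 m hm, ← Set.encard_coe_eq_coe_finsetCard]
  exact Set.encard_le_encard fun ν q => h3 m hm h1 ν q

/-- numbers of colours and offsets -/
def par : ℕ → ℕ × ℕ
  | 0 => (2, 0)
  | r + 1 => ((par r).1 ^ ((par r).1 + 1), (par r).2 + (par r).1 + 1)

theorem team (L : ℕ) : ∃ J, ∀ X, IsInst X → ∃ m < J, ∀ (A : ℕ → Set (ℕ → Bool)) (k : ℕ → ℕ)
    (W : ℕ → ℕ → List Bool × ℕ → Prop), (∀ n, IsClosed (A n)) → (∀ n i, REPred (W n i)) →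
    (∀ H : ℕ → Bool, Sol X {i | H i = true} →
      {n | H ∈ A n ∧ ∀ i < k n, ¬ Sol (Y m) (Out (W n i) H)}.encard ≤ L) →
    ∃ H : ℕ → Bool, Sol X {i | H i = true} ∧
      ∀ n, H ∈ A n → ∀ i < k n, ¬ Sol (Y m) (Out (W n i) H) := by
  refine ⟨2 ^ (par (L + 1)).2, fun X hX => ?_⟩
  generalize hJ : 2 ^ (par (L + 1)).2 = J
  have h0 : 0 < J := hJ ▸ Nat.two_pow_pos _
  by_contra hc
  push Not at hc
  choose! A k W h1 h2 h3 h4 using hc
  have h5 : ∀ r, Inv X J (fun m n H => H ∈ A (m % J) n ∧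
      ∀ i < k (m % J) n, ¬ Sol (Y m) (Out (W (m % J) n i) H)) (par r).1 (par r).2 r := by
    intro r
    induction r with
    | zero => exact inv_zero hX _ _
    | succ r ih =>
      refine Inv.step (A := fun m => A (m % J)) (k := fun m => k (m % J))
        (W := fun m => W (m % J)) (fun m => h1 _ (Nat.mod_lt _ h0))
        (fun m => h2 _ (Nat.mod_lt _ h0)) (fun m hm => ?_) ih
      simp only [Nat.mod_eq_of_lt hm]
      exact h4 m hm
  subst hJ
  obtain ⟨m, hm, H, h6, h7⟩ := (h5 (L + 1)).exists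
  simp only [Nat.mod_eq_of_lt hm] at h7
  have h8 := h7.trans (by simpa using h3 m hm H h6 : _ ≤ (L : ℕ∞))
  exact absurd (by exact_mod_cast h8 : L + 1 ≤ L) (by omega)

end Pool.Agent.Lib.MP_aa609a_lc.Team
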