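import Pool.Agent.Lib.MP_aa609a_lc.TBuild

/-! Invariants of the construction. -/

namespace Pool.Agent.Lib.MP_aa609a_lc.Team

open Pool.Agent.Shared.Oracle Filter Encodable Nat.Partrec

/-- height of the stack -/
def len (s : ℕ) : ℕ := (st s).1.length

/-- records -/
def R (s e : ℕ) : Rc := rd (st s) s e

/-- the position treated at a stage -/
def m (s : ℕ) : ℕ := mu (st s) s

/-- the cuts -/
def G (s : ℕ) : List (ℕ × ℕ) := (st s).2.1

/-- the last restraint -/
def lr (s : ℕ) : ℕ := (st s).2.2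

theorem m_le (s : ℕ) : m s ≤ len s := mub_le _ _

theorem stk_succ (s : ℕ) : (st (s + 1)).1 = (st s).1.take (m s) ++
    [nw (dat (m s)) (R s (m s)) (G s) s (decide (m s < len s))] := rfl

theorem len_succ (s : ℕ) : len (s + 1) = m s + 1 := by
  have : m s ≤ (st s).1.length := m_le s
  rw [len, stk_succ, List.length_append, List.length_take, min_eq_left this]
  rfl

theorem R_ge {s e : ℕ} (h : len s ≤ e) : R s e = (s, s, [(dat e).2]) :=
  List.getD_eq_default _ _ h

theorem R_lt {s e : ℕ} (h : e < m s) : R (s + 1) e = R s e := by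
  have h1 : e < (st s).1.length := h.trans_le (m_le s)
  have h2 : e < ((st s).1.take (m s)).length := by simp [h, h1]
  rw [R, R, rd, rd, stk_succ, List.getD_append _ _ _ _ h2, List.getD_eq_getElem _ _ h2,
    List.getD_eq_getElem _ _ h1, List.getElem_take]

theorem R_eq (s : ℕ) : R (s + 1) (m s) =
    nw (dat (m s)) (R s (m s)) (G s) s (decide (m s < len s)) := by
  have h2 : ((st s).1.take (m s)).length = m s := by
    rw [List.length_take]
    exact min_eq_left (m_le s)
  rw [R, rd, stk_succ, List.getD_append_right _ _ _ _ h2.le, h2, Nat.sub_self]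
  rfl

theorem R_gt {s e : ℕ} (h : m s < e) : R (s + 1) e = (s + 1, s + 1, [(dat e).2]) :=
  R_ge (by rw [len_succ]; exact h)

theorem lr_succ (s : ℕ) : lr (s + 1) = (R s (m s)).1 := rfl

theorem step'_g (q : St) (s m : ℕ) (d : Dat) (R : Rc) :
    (step' q s m d R).2.1 = ng d R q.2.1 s (decide (m < q.1.length)) := rfl

theorem G_succ (s : ℕ) :
    G (s + 1) = ng (dat (m s)) (R s (m s)) (G s) s (decide (m s < len s)) :=
  step'_g (st s) s (m s) (dat (m s)) (R s (m s))

theorem act_m {s : ℕ} (h : m s < len s) : act (dat (m s)) (R s (m s)) (G s) s = true :=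
  mub_spec (p := fun e => act (dat e) (R s e) (G s) s) h

theorem act_lt {s e : ℕ} (h : e < m s) : act (dat e) (R s e) (G s) s = false :=
  mub_min (p := fun e => act (dat e) (R s e) (G s) s) h

theorem colr_ng (k : ℕ) (d : Dat) (Q : Rc) (g : List (ℕ × ℕ)) (s : ℕ) (b : Bool) (x : ℕ) :
    colr k (ng d Q g s b) x = xor (colr k g x)
      ((b && k.testBit (d.1.2.2.1 + bq d Q g s)) && decide (Q.2.1 ≤ x)) := by
  cases b <;> simp [ng, colr]

theorem inv1 (s : ℕ) : ∀ e, (R s e).1 ≤ (R s e).2.1 ∧ (R s e).2.1 ≤ s ∧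
    ∀ e', e < e' → (R s e).2.1 ≤ (R s e').1 := by
  induction s with
  | zero =>
    intro e
    have h : ∀ e, R 0 e = (0, 0, [(dat e).2]) := fun e => R_ge (Nat.zero_le _)
    simp [h]
  | succ s ih =>
    intro e
    rcases lt_trichotomy e (m s) with h | rfl | h
    · rw [R_lt h]
      refine ⟨(ih e).1, (ih e).2.1.trans (Nat.le_succ s), fun e' h' => ?_⟩
      rcases lt_trichotomy e' (m s) with k | rfl | k
      · rw [R_lt k]
        exact (ih e).2.2 e' h'
      · rw [R_eq]
        exact (ih e).2.2 _ h'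
      · rw [R_gt k]
        exact (ih e).2.1.trans (Nat.le_succ s)
    · rw [R_eq]
      refine ⟨(ih _).1.trans (ih _).2.1, Nat.le_succ s, fun e' h' => ?_⟩
      rw [R_gt h']
      exact Nat.le_succ s
    · rw [R_gt h]
      refine ⟨le_rfl, le_rfl, fun e' h' => ?_⟩
      rw [R_gt (h.trans h')]

theorem inv2 {s u : ℕ} (hu : u < s) (e : ℕ) : (R s e).2.1 ≤ lr (u + 1) ∨ u ≤ (R s e).2.1 := by
  induction s with
  | zero => omega
  | succ s ih =>
    rcases lt_trichotomy e (m s) with h | rfl | h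
    · rw [R_lt h]
      rcases Nat.lt_succ_iff_lt_or_eq.1 hu with k | rfl
      · exact ih k
      · exact Or.inl ((inv1 u e).2.2 _ h)
    · rw [R_eq]
      exact Or.inr (Nat.lt_succ_iff.1 hu)
    · rw [R_gt h]
      exact Or.inr hu.le

theorem inv3 (c : ℕ) {u s x y : ℕ} (hu : u < s) (hx : lr (u + 1) ≤ x) (hx' : x < u)
    (hy : lr (u + 1) ≤ y) (hy' : y < u) : xor (colr c (G s) x) (colr c (G s) y) =
      xor (colr c (G (u + 1)) x) (colr c (G (u + 1)) y) := by
  induction s, hu using Nat.le_induction with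
  | base => rfl
  | succ s hs ih =>
    rw [← ih, G_succ, colr_ng, colr_ng]
    have h : decide ((R s (m s)).2.1 ≤ x) = decide ((R s (m s)).2.1 ≤ y) := by
      rw [decide_eq_decide]
      rcases inv2 hs (m s) with k | k <;> omega
    rw [h]
    generalize ((decide (m s < len s) && _) && decide ((R s (m s)).2.1 ≤ y)) = b
    cases b <;> simp

/-- the trees -/
def Y (c : ℕ) (τ : List Bool) : Prop := Yb st c τ = true

theorem Y_iff {c : ℕ} {τ : List Bool} : Y c τ ↔ ∀ u < τ.length, ∀ x < u, ∀ y < u,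
    lr (u + 1) ≤ x → lr (u + 1) ≤ y → xor (τ.getD x false) (τ.getD y false) =
      xor (colr c (G (u + 1)) x) (colr c (G (u + 1)) y) := by
  simp only [Y, Yb, ok, allb_iff, Bool.or_eq_true, Bool.not_eq_true', Bool.and_eq_false_iff,
    decide_eq_false_iff_not, decide_eq_true_eq, lr, G]
  refine forall₂_congr fun u _ => forall₂_congr fun x _ => forall₂_congr fun y _ => ?_
  tauto

theorem inst_Y (c : ℕ) : IsInst (Y c) := by
  refine ⟨?_, ?_, ?_⟩
  · exact ComputablePred.computable_iff.2 ⟨_, c_Yb c_st c, rfl⟩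
  · rintro σ τ ⟨ρ, rfl⟩ h
    rw [Y_iff] at h ⊢
    intro u hu x hx y hy h1 h2
    rw [← h u (by rw [List.length_append]; omega) x hx y hy h1 h2,
      List.getD_append _ _ _ _ (hx.trans hu), List.getD_append _ _ _ _ (hy.trans hu)]
  · refine Set.infinite_of_injective_forall_mem (f := fun n => seg (colr c (G n)) n)
      (fun a b h => by simpa using congrArg List.length h) fun n => Y_iff.2 ?_
    intro u hu x hx y hy h1 h2
    rw [seg_length] at hu
    rw [seg_getD _ (hx.trans hu), seg_getD _ (hy.trans hu)]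
    exact inv3 c hu h1 hx h2 hy

/-- two points that receive different colours -/
def Opp (c x y : ℕ) : Prop := ∃ u, lr (u + 1) ≤ x ∧ x < u ∧ lr (u + 1) ≤ y ∧ y < u ∧
  xor (colr c (G (u + 1)) x) (colr c (G (u + 1)) y) = true

theorem Opp.not_sol {c x y : ℕ} (h : Opp c x y) {S : Set ℕ} (hx : x ∈ S) (hy : y ∈ S) :
    ¬ Sol (Y c) S := by
  obtain ⟨u, h1, h2, h3, h4, h5⟩ := h
  refine fun k => k.2 ((List.finite_length_le Bool u).subset ?_)
  rintro τ ⟨k1, d, k2⟩
  by_contra hc
  have hu : u < τ.length := not_le.1 hc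
  have k3 := Y_iff.1 k1 u hu x h2 y h4 h1 h3
  rw [h5, List.getD_eq_getElem _ _ (h2.trans hu), List.getD_eq_getElem _ _ (h4.trans hu),
    k2 x hx _ (List.getElem?_eq_getElem (h2.trans hu)),
    k2 y hy _ (List.getElem?_eq_getElem (h4.trans hu))] at k3
  simp at k3

theorem getD_map_range {β : Type} (f : ℕ → β) {n i : ℕ} (h : i < n) (b : β) :
    ((List.range n).map f).getD i b = f i := by
  rw [List.getD_eq_getElem _ _ (by simpa using h)]
  simp

theorem exists_dg {K : ℕ} (c : ℕ → ℕ) (hc : ∀ i, c i < K) (s : ℕ) :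
    ∃ τ < K ^ s, ∀ i < s, dg K τ i = c i := by
  induction s generalizing c with
  | zero => exact ⟨0, by simp, by simp⟩
  | succ s ih =>
    obtain ⟨τ, h1, h2⟩ := ih (fun i => c (i + 1)) fun i => hc _
    have hK : 0 < K := (Nat.zero_le _).trans_lt (hc 0)
    refine ⟨c 0 + K * τ, ?_, fun i hi => ?_⟩
    · have := hc 0
      rw [pow_succ]
      nlinarith
    · cases i with
      | zero => simp [dg, Nat.mod_eq_of_lt (hc 0)]
      | succ i =>
        rw [← h2 i (by omega), dg, dg, pow_succ', ← Nat.div_div_eq_div_mul,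
          Nat.add_mul_div_left _ _ hK, Nat.div_eq_of_lt (hc 0), zero_add]

theorem same_iff {K n τ τ' : ℕ} : same K n τ τ' = true ↔ ∀ i < n, dg K τ i = dg K τ' i := by
  simp [same]

theorem within_iff {K p n s ρ τ : ℕ} : within K p n s ρ τ = true ↔
    ∀ i < s, ρ.testBit i = true → n ≤ i → dg K τ i = p := by
  simp only [within, allb_iff, Bool.or_eq_true, Bool.not_eq_true', decide_eq_true_eq]
  refine forall₂_congr fun i _ => ?_
  cases ρ.testBit i <;> simp [or_iff_not_imp_left]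

theorem good_iff {d : Dat} {ν : Nd} {g : List (ℕ × ℕ)} {t s q τ j ρ y : ℕ} :
    good d ν g t s q τ j ρ y = true ↔ j < ν.2.2.2.length ∧ ρ < 2 ^ s ∧ y < s ∧
      (∀ i < ν.1, ρ.testBit i = (ν.2.2.1.getD j.unpair.1 0).testBit i) ∧
      (∀ i < s, ρ.testBit i = true → ν.1 ≤ i → dg d.1.1 τ i = j.unpair.1) ∧ t ≤ y ∧
      out (d.1.2.2.2.getD j 0) s ρ y = true ∧
      prog g (ν.2.2.2.getD j 1) j.unpair.2.unpair.1 q y = true := by
  simp only [good, Bool.and_eq_true, decide_eq_true_eq, agree_iff, within_iff, and_assoc]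

theorem ev_iff {d : Dat} {ν : Nd} {g : List (ℕ × ℕ)} {t s q : ℕ} :
    ev d ν g t s q = true ↔ ν.1 ≤ s ∧ ∀ τ < d.1.1 ^ s, alive d ν s τ = true →
      ∃ j ρ y, good d ν g t s q τ j ρ y = true := by
  simp only [ev, Bool.and_eq_true, decide_eq_true_eq, allb_iff, Bool.or_eq_true,
    Bool.not_eq_true', exb_iff]
  refine and_congr Iff.rfl (forall₂_congr fun τ _ => ?_)
  rw [← Bool.not_eq_true, ← imp_iff_not_or]
  refine imp_congr Iff.rfl ⟨fun ⟨u, _, h⟩ => ⟨_, _, _, h⟩, fun ⟨j, ρ, y, h⟩ => ?_⟩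
  obtain ⟨h1, h2, h3, -⟩ := good_iff.1 h
  refine ⟨Nat.pair j (Nat.pair ρ y), ((Nat.pair_lt_pair_left _ h1).trans
    (Nat.pair_lt_pair_right _ ((Nat.pair_lt_pair_left _ h2).trans
      (Nat.pair_lt_pair_right _ h3)))), ?_⟩
  simpa [gd] using h

theorem wit_spec {d : Dat} {ν : Nd} {g : List (ℕ × ℕ)} {t s q τ : ℕ}
    (h : ev d ν g t s q = true) (h1 : τ < d.1.1 ^ s) (h2 : alive d ν s τ = true) :
    gd d ν g t s q τ (wit d ν g t s q τ) = true := by
  simp only [ev, Bool.and_eq_true, decide_eq_true_eq, allb_iff, Bool.or_eq_true,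
    Bool.not_eq_true', exb_iff] at h
  obtain ⟨u, h3, h4⟩ := (h.2 τ h1).resolve_left (by simp [h2])
  refine mub_spec (p := fun u => gd d ν g t s q τ u) (lt_of_le_of_lt (not_lt.1 fun k => ?_) h3)
  exact Bool.noConfusion (h4.symm.trans (mub_min (p := fun u => gd d ν g t s q τ u) k))

theorem mem_kids {d : Dat} {ν ν' : Nd} {g : List (ℕ × ℕ)} {t s q : ℕ} :
    ν' ∈ kids d ν g t s q ↔ ∃ τ < d.1.1 ^ s, alive d ν s τ = true ∧
      ν' = child d ν s τ (wit d ν g t s q τ) := by
  unfold kids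
  simp only [← List.mem_range]
  induction List.range (d.1.1 ^ s) with
  | nil => simp
  | cons a l ih =>
    rw [List.foldr_cons]
    cases h : alive d ν s a
    · simp [ih, h]
    · simp [ih, h]

theorem act_iff {d : Dat} {Q : Rc} {g : List (ℕ × ℕ)} {s : ℕ} (h : act d Q g s = true) :
    Q.2.2 = hd Q :: Q.2.2.tail ∧ ev d (hd Q) g Q.2.1 s (d.1.2.2.1 + bq d Q g s) = true := by
  simp only [act, Bool.and_eq_true, decide_eq_true_eq] at h
  refine ⟨?_, mub_spec (p := fun b => ev d (hd Q) g Q.2.1 s (d.1.2.2.1 + b)) h.2⟩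
  obtain ⟨r, t, l⟩ := Q
  cases l with
  | nil => simp at h
  | cons a l => rfl

/-- weight of a status -/
def wt (a : ℕ) : ℕ := if a = 0 then 2 else if a = 1 then 0 else 1

/-- weight of a node -/
def ms (ν : Nd) : ℕ := ∑ j ∈ Finset.range ν.2.2.2.length, wt (ν.2.2.2.getD j 1)

theorem ms_child {d : Dat} {ν : Nd} {g : List (ℕ × ℕ)} {t s q τ j ρ y : ℕ}
    (h : good d ν g t s q τ j ρ y = true) : ms (child' d ν s τ j ρ y) < ms ν := by
  obtain ⟨h1, -, -, -, -, -, -, h2⟩ := good_iff.1 h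
  have h3 : wt (cond (decide (ν.2.2.2.getD j 1 = 0)) (y + 2) 1) < wt (ν.2.2.2.getD j 1) := by
    simp only [prog, Bool.or_eq_true, Bool.and_eq_true, decide_eq_true_eq] at h2
    generalize ν.2.2.2.getD j 1 = a at *
    rcases h2 with rfl | ⟨h2, -⟩
    · simp [wt]
    · have : a ≠ 0 := by omega
      have : a ≠ 1 := by omega
      simp [wt, *]
  simp only [ms, child', List.length_map, List.length_range]
  refine Finset.sum_lt_sum (fun i hi => ?_) ⟨j, Finset.mem_range.2 h1, ?_⟩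
  · rw [getD_map_range _ (Finset.mem_range.1 hi)]
    by_cases k : i = j
    · subst k
      simpa using h3.le
    · simp [k]
  · rw [getD_map_range _ h1]
    simpa using h3

/-- the multiset of weights -/
def mm (Q : Rc) : Multiset ℕ := (Q.2.2.map ms : List ℕ)

theorem mm_lt {s : ℕ} (h : m s < len s) :
    Relation.CutExpand (· < ·) (mm (R (s + 1) (m s))) (mm (R s (m s))) := by
  obtain ⟨h1, h2⟩ := act_iff (act_m h)
  rw [R_eq, decide_eq_true h]
  generalize R s (m s) = Q at *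
  generalize dat (m s) = d at *
  refine ⟨((kids d (hd Q) (G s) Q.2.1 s (d.1.2.2.1 + bq d Q (G s) s)).map ms : List ℕ),
    ms (hd Q), fun a ha => ?_, ?_⟩
  · obtain ⟨ν, k1, rfl⟩ := List.mem_map.1 (Multiset.mem_coe.1 ha)
    obtain ⟨τ, k2, k3, rfl⟩ := mem_kids.1 k1
    exact ms_child (wit_spec h2 k2 k3)
  · have h3 : mm Q = {ms (hd Q)} + (Q.2.2.tail.map ms : List ℕ) := by
      rw [mm, h1]
      rfl
    rw [h3]
    simp only [mm, nw, cond_true, List.map_append, ← Multiset.coe_add]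
    abel

theorem stable (e : ℕ) : ∃ s₀, ∀ s, s₀ ≤ s → e ≤ m s := by
  induction e with
  | zero => exact ⟨0, fun _ _ => Nat.zero_le _⟩
  | succ e ih =>
    obtain ⟨s₀, h⟩ := ih
    have h1 : ∀ s, s₀ + 1 ≤ s → e < len s := by
      intro s hs
      obtain ⟨u, rfl⟩ : ∃ u, s = u + 1 := ⟨s - 1, by omega⟩
      rw [len_succ]
      exact Nat.lt_succ_of_le (h u (by omega))
    obtain ⟨_, ⟨s₁, h2, rfl⟩, h3⟩ := (WellFounded.cutExpand (r := ((· < ·) : ℕ → ℕ → Prop))
      wellFounded_lt).has_min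
      ((fun s => mm (R s e)) '' {s | s₀ + 1 ≤ s}) ⟨_, s₀ + 1, le_refl (s₀ + 1), rfl⟩
    have h4 : ∀ s, s₁ ≤ s → R s e = R s₁ e → e < m s := by
      intro s hs k
      have k1 : s₀ + 1 ≤ s := le_trans h2 hs
      refine lt_of_le_of_ne (h s (by omega)) fun c => ?_
      have k2 := mm_lt (c ▸ h1 s k1)
      rw [← c, k] at k2
      exact h3 _ ⟨s + 1, k1.trans (Nat.le_succ s), rfl⟩ k2
    have h5 : ∀ s, s₁ ≤ s → R s e = R s₁ e := by
      intro s hs
      induction s, hs using Nat.le_induction with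
      | base => rfl
      | succ s hs ih => rw [R_lt (h4 s hs ih), ih]
    exact ⟨s₁, fun s hs => h4 s hs (h5 s hs)⟩

theorem exists_limit (e : ℕ) :
    ∃ s₀, ∀ s, s₀ ≤ s → act (dat e) (R s₀ e) (G s) s = false := by
  obtain ⟨s₀, h⟩ := stable (e + 1)
  have h5 : ∀ s, s₀ ≤ s → R s e = R s₀ e := by
    intro s hs
    induction s, hs using Nat.le_induction with
    | base => rfl
    | succ s hs ih => rw [R_lt (h s hs), ih]
  exact ⟨s₀, fun s hs => h5 s hs ▸ act_lt (h s hs)⟩

end Pool.Agent.Lib.MP_aa609a_lc.Team
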