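import Pool.Agent.Lib.MP_aa609a_lc.Build

/-! Invariants of the construction. -/

namespace Pool.Agent.Lib.MP_aa609a_lc

open Pool.Agent.Shared.Oracle Filter

variable (X : List Bool → Bool)

/-- height of the stack -/
def len (s : ℕ) : ℕ := (st X s).1.length

/-- records -/
def R (s e : ℕ) : Rc := rd (st X s) s e

/-- the position treated at a stage -/
def m (s : ℕ) : ℕ := mu X (st X s) s

/-- the colourings -/
def G (s : ℕ) (c : Bool) : List ℕ := Gq (st X s) c

/-- the last restraint -/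
def lr (s : ℕ) : ℕ := (st X s).2.2

/-- the flips -/
def fl (s : ℕ) (c : Bool) : Bool :=
  cond c (pb X (m X s) (R X s (m X s)) (st X s).2.1 s) (pa X (m X s) (R X s (m X s)) (st X s).2.1 s)

theorem m_le (s : ℕ) : m X s ≤ len X s := mub_le _ _

theorem stk_succ (s : ℕ) : (st X (s + 1)).1 = (st X s).1.take (m X s) ++
    [nw (R X s (m X s)) s (decide (m X s < len X s))] := rfl

theorem len_succ (s : ℕ) : len X (s + 1) = m X s + 1 := by
  have : m X s ≤ (st X s).1.length := m_le X s
  rw [len, stk_succ, List.length_append, List.length_take, min_eq_left this]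
  rfl

theorem R_ge {s e : ℕ} (h : len X s ≤ e) : R X s e = (s, s, false, 0, 0) :=
  List.getD_eq_default _ _ h

theorem R_lt {s e : ℕ} (h : e < m X s) : R X (s + 1) e = R X s e := by
  have h1 : e < (st X s).1.length := h.trans_le (m_le X s)
  have h2 : e < ((st X s).1.take (m X s)).length := by simp [h, h1]
  rw [R, R, rd, rd, stk_succ, List.getD_append _ _ _ _ h2, List.getD_eq_getElem _ _ h2,
    List.getD_eq_getElem _ _ h1, List.getElem_take]

theorem R_eq (s : ℕ) :
    R X (s + 1) (m X s) = nw (R X s (m X s)) s (decide (m X s < len X s)) := by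
  have h2 : ((st X s).1.take (m X s)).length = m X s := by
    rw [List.length_take]
    exact min_eq_left (m_le X s)
  rw [R, rd, stk_succ, List.getD_append_right _ _ _ _ h2.le, h2, Nat.sub_self]
  rfl

theorem R_gt {s e : ℕ} (h : m X s < e) : R X (s + 1) e = (s + 1, s + 1, false, 0, 0) :=
  R_ge X (by rw [len_succ]; exact h)

theorem lr_succ (s : ℕ) : lr X (s + 1) = (R X s (m X s)).1 := rfl

theorem G_succ (s : ℕ) (c : Bool) :
    G X (s + 1) c = flp (fl X s c) (R X s (m X s)).2.1 (G X s c) := by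
  cases c <;> rfl

theorem act_m {s : ℕ} (h : m X s < len X s) :
    act X (m X s) (R X s (m X s)) (st X s).2.1 s = true := mub_spec h

theorem act_lt {s e : ℕ} (h : e < m X s) : act X e (R X s e) (st X s).2.1 s = false :=
  mub_min (p := fun e => act X e (R X s e) (st X s).2.1 s) h

theorem col_flp (a : Bool) (t : ℕ) (g : List ℕ) (x : ℕ) :
    col (flp a t g) x = xor (col g x) (a && decide (t ≤ x)) := by
  cases a <;> simp [flp, col]

theorem inv1 (s : ℕ) : ∀ e, (R X s e).1 ≤ (R X s e).2.1 ∧ (R X s e).2.1 ≤ s ∧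
    ∀ e', e < e' → (R X s e).2.1 ≤ (R X s e').1 := by
  induction s with
  | zero =>
    intro e
    have h : ∀ e, R X 0 e = (0, 0, false, 0, 0) := fun e => R_ge X (Nat.zero_le _)
    simp [h]
  | succ s ih =>
    intro e
    rcases lt_trichotomy e (m X s) with h | rfl | h
    · rw [R_lt X h]
      refine ⟨(ih e).1, (ih e).2.1.trans (Nat.le_succ s), fun e' h' => ?_⟩
      rcases lt_trichotomy e' (m X s) with k | rfl | k
      · rw [R_lt X k]
        exact (ih e).2.2 e' h'
      · rw [R_eq]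
        exact (ih e).2.2 _ h'
      · rw [R_gt X k]
        exact (ih e).2.1.trans (Nat.le_succ s)
    · rw [R_eq]
      refine ⟨(ih _).1.trans (ih _).2.1, Nat.le_succ s, fun e' h' => ?_⟩
      rw [R_gt X h']
      exact Nat.le_succ s
    · rw [R_gt X h]
      refine ⟨le_rfl, le_rfl, fun e' h' => ?_⟩
      rw [R_gt X (h.trans h')]

theorem inv2 {s u : ℕ} (hu : u < s) (e : ℕ) :
    (R X s e).2.1 ≤ lr X (u + 1) ∨ u ≤ (R X s e).2.1 := by
  induction s with
  | zero => omega
  | succ s ih =>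
    rcases lt_trichotomy e (m X s) with h | rfl | h
    · rw [R_lt X h]
      rcases Nat.lt_succ_iff_lt_or_eq.1 hu with k | rfl
      · exact ih k
      · exact Or.inl ((inv1 X u e).2.2 _ h)
    · rw [R_eq]
      exact Or.inr (Nat.lt_succ_iff.1 hu)
    · rw [R_gt X h]
      exact Or.inr hu.le

theorem inv3 (c : Bool) {u s x y : ℕ} (hu : u < s) (hx : lr X (u + 1) ≤ x) (hx' : x < u)
    (hy : lr X (u + 1) ≤ y) (hy' : y < u) : xor (col (G X s c) x) (col (G X s c) y) =
      xor (col (G X (u + 1) c) x) (col (G X (u + 1) c) y) := by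
  induction s, hu using Nat.le_induction with
  | base => rfl
  | succ s hs ih =>
    rw [← ih, G_succ, col_flp, col_flp]
    have h : decide ((R X s (m X s)).2.1 ≤ x) = decide ((R X s (m X s)).2.1 ≤ y) := by
      rw [decide_eq_decide]
      rcases inv2 X hs (m X s) with k | k <;> omega
    rw [h]
    generalize (fl X s c && decide ((R X s (m X s)).2.1 ≤ y)) = b
    cases b <;> simp

/-- the trees -/
def Y (c : Bool) (τ : List Bool) : Prop := Yb (st X) c τ = true

theorem Y_iff {c : Bool} {τ : List Bool} : Y X c τ ↔ ∀ u < τ.length, ∀ x < u, ∀ y < u,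
    lr X (u + 1) ≤ x → lr X (u + 1) ≤ y → xor (τ.getD x false) (τ.getD y false) =
      xor (col (G X (u + 1) c) x) (col (G X (u + 1) c) y) := by
  simp only [Y, Yb, ok, allb_iff, Bool.or_eq_true, Bool.not_eq_true', Bool.and_eq_false_iff,
    decide_eq_false_iff_not, decide_eq_true_eq, lr, G]
  refine forall₂_congr fun u _ => forall₂_congr fun x _ => forall₂_congr fun y _ => ?_
  tauto

theorem seg_getD (P : ℕ → Bool) {k i : ℕ} (h : i < k) : (seg P k).getD i false = P i := by
  rw [List.getD_eq_getElem?_getD, seg_getElem?, if_pos h]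
  rfl

theorem inst_Y (hX : Computable X) (c : Bool) : IsInst (Y X c) := by
  refine ⟨?_, ?_, ?_⟩
  · exact ComputablePred.computable_iff.2 ⟨_, c_Yb (c_st hX) c, rfl⟩
  · rintro σ τ ⟨ρ, rfl⟩ h
    rw [Y_iff] at h ⊢
    intro u hu x hx y hy h1 h2
    rw [← h u (by rw [List.length_append]; omega) x hx y hy h1 h2,
      List.getD_append _ _ _ _ (hx.trans hu), List.getD_append _ _ _ _ (hy.trans hu)]
  · refine Set.infinite_of_injective_forall_mem (f := fun n => seg (col (G X n c)) n)
      (fun a b h => by simpa using congrArg List.length h) fun n => (Y_iff X).2 ?_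
    intro u hu x hx y hy h1 h2
    rw [seg_length] at hu
    rw [seg_getD _ (hx.trans hu), seg_getD _ (hy.trans hu)]
    exact inv3 X c hu h1 hx h2 hy

/-- two points that receive different colours -/
def Opp (c : Bool) (x y : ℕ) : Prop := ∃ u, lr X (u + 1) ≤ x ∧ x < u ∧ lr X (u + 1) ≤ y ∧ y < u ∧
  xor (col (G X (u + 1) c) x) (col (G X (u + 1) c) y) = true

theorem Opp.not_sol {c : Bool} {x y : ℕ} (h : Opp X c x y) {S : Set ℕ} (hx : x ∈ S) (hy : y ∈ S) :
    ¬ Sol (Y X c) S := by
  obtain ⟨u, h1, h2, h3, h4, h5⟩ := h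
  refine fun k => k.2 ((List.finite_length_le Bool u).subset ?_)
  rintro τ ⟨k1, d, k2⟩
  by_contra hc
  have hu : u < τ.length := not_le.1 hc
  have k3 := (Y_iff X).1 k1 u hu x h2 y h4 h1 h3
  rw [h5, List.getD_eq_getElem _ _ (h2.trans hu), List.getD_eq_getElem _ _ (h4.trans hu),
    k2 x hx _ (List.getElem?_eq_getElem (h2.trans hu)),
    k2 y hy _ (List.getElem?_eq_getElem (h4.trans hu))] at k3
  simp at k3

/-- paths -/
def Path (P : ℕ → Bool) : Prop := ∀ k, X (seg P k) = true

/-- the requirement has won above the node `j` of level `l` -/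
def Won (e l j : ℕ) : Prop := ∀ P, Path X P → (∀ i < dn e, P i = (ds e).testBit i) →
  (∀ i < l, P i = j.testBit i) → ∃ c s ρ x y, dn e ≤ s ∧ agree (dn e) ρ (dF e c) = true ∧
    (∀ i < s, ρ.testBit i = true → P i = c) ∧ out (dW e c) s ρ x = true ∧
      out (dW e c) s ρ y = true ∧ Opp X c x y

theorem exists_sg (P : ℕ → Bool) (s : ℕ) :
    ∃ τ < 2 ^ s, sg τ s = seg P s ∧ ∀ i < s, τ.testBit i = P i := by
  obtain ⟨τ, h1, h2⟩ := exists_bits P s
  exact ⟨τ, h1, h2 s le_rfl, seg_congr.1 (h2 s le_rfl)⟩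

theorem agree_iff {n a b : ℕ} : agree n a b = true ↔ ∀ i < n, a.testBit i = b.testBit i := by
  simp [agree]

theorem sub_iff {c : Bool} {s ρ τ : ℕ} :
    sub c s ρ τ = true ↔ ∀ i < s, ρ.testBit i = true → τ.testBit i = c := by
  simp only [sub, allb_iff, Bool.or_eq_true, Bool.not_eq_true', decide_eq_true_eq]
  refine forall₂_congr fun i _ => ?_
  cases ρ.testBit i <;> simp

theorem P2_iff {e : ℕ} {Q : Rc} {g : List ℕ × List ℕ} {s : ℕ} {a b : Bool} :
    P2 X e Q g s a b = true ↔ ∀ τ < 2 ^ s, agree (dn e) τ (ds e) = true →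
      agree Q.2.2.2.1 τ Q.2.2.2.2 = true → X (sg τ s) = true →
        ev2 e false g.1 a Q.1 Q.2.1 s τ = true ∨ ev2 e true g.2 b Q.1 Q.2.1 s τ = true := by
  simp only [P2, allb_iff, Bool.or_eq_true, Bool.not_eq_true', ← Bool.not_eq_true,
    Bool.and_eq_true]
  refine forall₂_congr fun i _ => ?_
  tauto

theorem P1_iff {e r s : ℕ} : P1 X e r s = true ↔ dn e ≤ s ∧ ∀ τ < 2 ^ s,
    agree (dn e) τ (ds e) = true → X (sg τ s) = true → ∀ c, ev1 e c r s τ = true := by
  simp only [P1, allb_iff, Bool.or_eq_true, Bool.not_eq_true',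
    ← Bool.not_eq_true, Bool.and_eq_true, decide_eq_true_eq, Bool.forall_bool]
  refine and_congr Iff.rfl (forall₂_congr fun i _ => ?_)
  tauto

theorem inv4 (s : ℕ) : ∀ e, (R X s e).2.2.1 = true → (R X s e).2.2.2.1 ≤ (R X s e).2.1 ∧
    P1 X e (R X s e).1 (R X s e).2.2.2.1 = true ∧
      ∀ j < (R X s e).2.2.2.2, Won X e (R X s e).2.2.2.1 j := by
  induction s with
  | zero =>
    intro e
    rw [R_ge X (Nat.zero_le _)]
    simp
  | succ s ih =>
    intro e
    rcases lt_trichotomy e (m X s) with h | rfl | h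
    · rw [R_lt X h]
      exact ih e
    swap
    · rw [R_gt X h]
      simp
    rw [R_eq]
    intro h0
    have h1 := act_m X (of_decide_eq_true h0)
    have h2 := ih (m X s)
    have h3 := inv1 X s (m X s)
    have h4 := lr_succ X s
    have h5 := G_succ X s
    have h6 : ∀ c, G X s c = cond c (st X s).2.1.2 (st X s).2.1.1 := fun _ => rfl
    unfold fl at h5
    generalize R X s (m X s) = Q at *
    generalize m X s = e at *
    obtain ⟨r, t, f, l, j⟩ := Q
    cases f
    · exact ⟨le_rfl, h1, fun j hj => absurd hj (Nat.not_lt_zero j)⟩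
    obtain ⟨k1, k2, k3⟩ := h2 rfl
    refine ⟨k1.trans h3.2.1, k2, fun j' hj => ?_⟩
    rcases Nat.lt_succ_iff_lt_or_eq.1 hj with k | rfl
    · exact k3 j' k
    intro P hP p1 p2
    have k4 : dn e ≤ l := ((P1_iff X).1 k2).1
    have k5 : l ≤ s := k1.trans h3.2.1
    obtain ⟨τ, t1, t2, t3⟩ := exists_sg P s
    have key : ∀ c a, G X (s + 1) c = flp a t (G X s c) → ev2 e c (G X s c) a r t s τ = true →
        ∃ c s ρ x y, dn e ≤ s ∧ agree (dn e) ρ (dF e c) = true ∧
          (∀ i < s, ρ.testBit i = true → P i = c) ∧ out (dW e c) s ρ x = true ∧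
            out (dW e c) s ρ y = true ∧ Opp X c x y := by
      intro c a hg hv
      simp only [ev2, exb_iff, Bool.and_eq_true, decide_eq_true_eq] at hv
      obtain ⟨ρ, -, ⟨v1, v2⟩, x, hx, ⟨v3, v4⟩, y, hy, ⟨v5, v6⟩, v7⟩ := hv
      refine ⟨c, s, ρ, x, y, k4.trans k5, v1, fun i hi hr => ?_, v4, v6, s, h4.le.trans v3,
        hx.trans_le h3.2.1, h4.le.trans (h3.1.trans v5), hy, ?_⟩
      · rw [← t3 i hi]
        exact sub_iff.1 v2 i hi hr
      · rw [hg, col_flp, col_flp, decide_eq_false (not_le.2 hx), decide_eq_true v5]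
        simpa using v7
    rcases (P2_iff X).1 (Bool.and_eq_true_iff.1 h1).2 τ t1
      (agree_iff.2 fun i hi => (t3 i (by omega)).trans (p1 i hi))
      (agree_iff.2 fun i hi => (t3 i (lt_of_lt_of_le hi k5)).trans (p2 i hi))
      (t2 ▸ hP s) with k | k
    · exact key false _ (h5 false) k
    · exact key true _ (h5 true) k

/-- the measure that decreases when a requirement acts -/
def ms (Q : Rc) : ℕ∞ := cond Q.2.2.1 ((2 ^ Q.2.2.2.1 - Q.2.2.2.2 : ℕ) : ℕ∞) ⊤

theorem ms_lt {s : ℕ} (h : m X s < len X s) : ms (R X (s + 1) (m X s)) < ms (R X s (m X s)) := by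
  have h1 := act_m X h
  rw [R_eq, decide_eq_true h]
  generalize R X s (m X s) = Q at *
  obtain ⟨r, t, f, l, j⟩ := Q
  cases f
  · exact ENat.natCast_lt_top _
  · have h2 : j < 2 ^ l := of_decide_eq_true (Bool.and_eq_true_iff.1 h1).1
    change ((2 ^ l - (j + 1) : ℕ) : ℕ∞) < ((2 ^ l - j : ℕ) : ℕ∞)
    exact_mod_cast (by omega : 2 ^ l - (j + 1) < 2 ^ l - j)

theorem stable (e : ℕ) : ∃ s₀, ∀ s, s₀ ≤ s → e ≤ m X s := by
  induction e with
  | zero => exact ⟨0, fun _ _ => Nat.zero_le _⟩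
  | succ e ih =>
    obtain ⟨s₀, h⟩ := ih
    have h1 : ∀ s, s₀ + 1 ≤ s → e < len X s := by
      intro s hs
      obtain ⟨u, rfl⟩ : ∃ u, s = u + 1 := ⟨s - 1, by omega⟩
      rw [len_succ]
      exact Nat.lt_succ_of_le (h u (by omega))
    obtain ⟨_, ⟨s₁, h2, rfl⟩, h3⟩ := wellFounded_lt.has_min
      ((fun s => ms (R X s e)) '' {s | s₀ + 1 ≤ s}) ⟨_, s₀ + 1, le_refl (s₀ + 1), rfl⟩
    have h4 : ∀ s, s₁ ≤ s → R X s e = R X s₁ e → e < m X s := by
      intro s hs k
      have k1 : s₀ + 1 ≤ s := le_trans h2 hs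
      refine lt_of_le_of_ne (h s (by omega)) fun c => ?_
      have k2 := ms_lt X (c ▸ h1 s k1)
      rw [← c, k] at k2
      exact h3 _ ⟨s + 1, k1.trans (Nat.le_succ s), rfl⟩ k2
    have h5 : ∀ s, s₁ ≤ s → R X s e = R X s₁ e := by
      intro s hs
      induction s, hs using Nat.le_induction with
      | base => rfl
      | succ s hs ih => rw [R_lt X (h4 s hs ih), ih]
    exact ⟨s₁, fun s hs => h4 s hs (h5 s hs)⟩

theorem exists_limit (e : ℕ) : ∃ s₀, ∀ s, s₀ ≤ s → act X e (R X s₀ e) (st X s).2.1 s = false := by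
  obtain ⟨s₀, h⟩ := stable X (e + 1)
  have h5 : ∀ s, s₀ ≤ s → R X s e = R X s₀ e := by
    intro s hs
    induction s, hs using Nat.le_induction with
    | base => rfl
    | succ s hs ih => rw [R_lt X (h s hs), ih]
  exact ⟨s₀, fun s hs => h5 s hs ▸ act_lt X (h s hs)⟩

end Pool.Agent.Lib.MP_aa609a_lc
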